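import Mathlib

/-!
# The prime element `A + 1` of `ℤ[A, A⁻¹]`
-/

set_option autoImplicit false

namespace Pool.Agent.Y463.SK

open LaurentPolynomial

/-- evaluation at `A = -1` -/
noncomputable def evm : ℤ[T;T⁻¹] →+* ℤ := LaurentPolynomial.eval₂ (RingHom.id ℤ) (-1 : ℤˣ)

theorem evm_T1 : evm (T 1) = -1 := by
  unfold evm
  rw [LaurentPolynomial.eval₂_T]
  simp

theorem evm_pi : evm (T 1 + 1) = 0 := by
  rw [map_add, evm_T1, map_one]; norm_num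

theorem isUnit_T (n : ℤ) : IsUnit (T n : ℤ[T;T⁻¹]) := by
  refine ⟨⟨T n, T (-n), ?_, ?_⟩, rfl⟩
  · rw [← T_add, add_neg_cancel, T_zero]
  · rw [← T_add, neg_add_cancel, T_zero]

theorem dvd_of_evm {x : ℤ[T;T⁻¹]} (h : evm x = 0) : (T 1 + 1 : ℤ[T;T⁻¹]) ∣ x := by
  obtain ⟨n, p, hp⟩ := LaurentPolynomial.exists_T_pow x
  have h1 : Polynomial.eval (-1 : ℤ) p = 0 := by
    have h2 := congrArg evm hp
    rw [map_mul, h, zero_mul] at h2
    unfold evm at h2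
    rw [LaurentPolynomial.eval₂_toLaurent] at h2
    simpa [Polynomial.eval₂_id] using h2
  have h2 : (Polynomial.X - Polynomial.C (-1 : ℤ)) ∣ p := Polynomial.dvd_iff_isRoot.2 h1
  obtain ⟨q, hq⟩ := h2
  have h3 : (T 1 + 1 : ℤ[T;T⁻¹]) ∣ x * T n := by
    rw [← hp, hq, map_mul, map_sub, Polynomial.toLaurent_X, Polynomial.toLaurent_C]
    refine ⟨Polynomial.toLaurent q, ?_⟩
    congr 1
    rw [map_neg, map_one, sub_neg_eq_add]
  exact ((isUnit_T n).dvd_mul_right).1 h3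

theorem evm_eq_zero_iff {x : ℤ[T;T⁻¹]} : evm x = 0 ↔ (T 1 + 1 : ℤ[T;T⁻¹]) ∣ x := by
  refine ⟨dvd_of_evm, ?_⟩
  rintro ⟨y, rfl⟩
  rw [map_mul, evm_pi, zero_mul]

theorem pi_ne_zero : (T 1 + 1 : ℤ[T;T⁻¹]) ≠ 0 := by
  intro h
  have h1 := congrArg (fun f : ℤ[T;T⁻¹] => LaurentPolynomial.eval₂ (RingHom.id ℤ) (1 : ℤˣ) f) h
  simp only [map_add, map_one, map_zero, LaurentPolynomial.eval₂_T] at h1
  simp at h1

theorem prime_pi : Prime (T 1 + 1 : ℤ[T;T⁻¹]) := by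
  refine ⟨pi_ne_zero, ?_, ?_⟩
  · intro h
    have := h.map evm
    rw [evm_pi] at this
    exact not_isUnit_zero this
  · intro a b hab
    rw [← evm_eq_zero_iff, map_mul, mul_eq_zero, evm_eq_zero_iff, evm_eq_zero_iff] at hab
    exact hab

theorem not_pi_dvd_int (N : ℤ) (hN : N ≠ 0) : ¬ (T 1 + 1 : ℤ[T;T⁻¹]) ∣ (N : ℤ[T;T⁻¹]) := by
  rw [← evm_eq_zero_iff, map_intCast]
  simpa using hN

instance : IsNoetherianRing ℤ[T;T⁻¹] := by
  have := LaurentPolynomial.isLocalization (R := ℤ)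
  exact IsLocalization.isNoetherianRing (Submonoid.powers (Polynomial.X : Polynomial ℤ)) _ inferInstance

theorem eq_zero_of_pi_pow (x : ℤ[T;T⁻¹]) (h : ∀ k : ℕ, (T 1 + 1 : ℤ[T;T⁻¹]) ^ k ∣ x) : x = 0 := by
  by_contra hx
  have := FiniteMultiplicity.of_prime_left prime_pi hx
  obtain ⟨n, hn⟩ := this
  exact hn (h (n+1))

/-- `A^(2k) ≡ 1` -/
theorem pi_dvd_T_even (c : ℤ) (hc : Even c) : (T 1 + 1 : ℤ[T;T⁻¹]) ∣ T c - 1 := by
  rw [← evm_eq_zero_iff, map_sub, map_one]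
  unfold evm
  rw [LaurentPolynomial.eval₂_T]
  rw [hc.neg_one_zpow]
  simp

end Pool.Agent.Y463.SK
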