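import Pool.Agent.Y463.SK.Cox

/-!
# The Temperley–Lieb algebra is spanned by `m!` words, and pure braids are `≡ 1` modulo `A + 1`
-/

set_option autoImplicit false

namespace Pool.Agent.Y463.SK

open Polynomial

/-- Temperley–Lieb relations for `e i`, `i + 1 < m` (`m` strands), loop value `d`, over a commutative
ring. -/
structure IsTLr {R B : Type*} [CommRing R] [Ring B] [Algebra R B] (m : ℕ) (d : R) (e : ℕ → B) : 
    Prop where
  sq : ∀ i, i + 1 < m → e i * e i = d • e i
  up : ∀ i, i + 2 < m → e i * e (i+1) * e i = e i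
  down : ∀ i, i + 2 < m → e (i+1) * e i * e (i+1) = e (i+1)
  far : ∀ i j, j + 1 < m → i + 2 ≤ j → e i * e j = e j * e i

section span
variable {R B : Type*} [CommRing R] [Ring B] [Algebra R B] {m : ℕ} {d : R} {e : ℕ → B}

theorem dp_high' (h : IsTLr m d e) {r i : ℕ} (hr : r + 1 < m) (hi : i ≤ r) : ∀ k, k ≤ r + 1 → 
    r + 1 < i + k → dp e r k * e i = dp e (i - 2) (i + k - (r + 2)) * dp e r (r + 1 - i)
  | 0, _, h2 => by omega
  | 1, _, h2 => by omega
  | (k+2), h1, h2 => by
    rcases Nat.lt_or_ge (r + 1) (i + (k + 1)) with h3 | h3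
    · have ih := dp_high' h hr hi (k+1) (by omega) h3
      have hc : Commute (e (r - (k+1))) (dp e r (r + 1 - i)) := 
        comm_dp _ (by omega) (fun l h4 h5 => h.far _ l (by omega) (by omega))
      have e1 : i + (k + 2) - (r + 2) = (i + (k + 1) - (r + 2)) + 1 := by omega
      have e2 : i - 2 - (i + (k + 1) - (r + 2)) = r - (k+1) := by omega
      have e3 : dp e r (k + 2) = dp e r (k+1) * e (r - (k+1)) := rfl
      have e4 : dp e (i - 2) ((i + (k + 1) - (r + 2)) + 1) = 
        dp e (i - 2) (i + (k + 1) - (r + 2)) * e (i - 2 - (i + (k + 1) - (r + 2))) := rfl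
      rw [e1, e3, e4, e2, mul_assoc, h.far (r - (k+1)) i (by omega) (by omega), ← mul_assoc, ih, 
        mul_assoc, mul_assoc, hc.eq]
    · -- r + 1 = i + k + 1
      obtain ⟨j, rfl⟩ : ∃ j, i = j + 1 := ⟨i - 1, by omega⟩
      have e1 : r - (k+1) = j := by omega
      have e2 : r - k = j + 1 := by omega
      have e3 : j + 1 + (k + 2) - (r + 2) = 0 := by omega
      have e4 : r + 1 - (j + 1) = k + 1 := by omega
      have e5 : dp e r (k + 2) = dp e r k * e (r - k) * e (r - (k+1)) := rfl
      have e6 : dp e r (k + 1) = dp e r k * e (r - k) := rfl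
      rw [e3, e4, e5, e6, e1, e2, dp, one_mul, mul_assoc, mul_assoc, ← mul_assoc (e (j+1)),
        h.down j (by omega)]

/-- the words -/
def wl (e : ℕ → B) : ℕ → List B
  | 0 => [1]
  | (r+1) => (List.range (r+2)).flatMap (fun k => (wl e r).map (fun x => x * dp e r k))

theorem wl_length (e : ℕ → B) : ∀ r, (wl e r).length = (r+1).factorial
  | 0 => rfl
  | (r+1) => by
    rw [wl, List.length_flatMap]
    simp only [List.length_map, wl_length e r]
    rw [List.map_const', List.sum_replicate, List.length_range, smul_eq_mul, 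
      Nat.factorial_succ (r+1)]

/-- their span -/
def SS (R : Type*) {B : Type*} [CommRing R] [Ring B] [Algebra R B] (e : ℕ → B) (r : ℕ) : Submodule R B := 
  Submodule.span R {x | x ∈ wl e r}

theorem mem_wl_succ {r k : ℕ} (hk : k ≤ r + 1) {x : B} (hx : x ∈ wl e r) : 
    x * dp e r k ∈ wl e (r+1) := by
  rw [wl, List.mem_flatMap]
  exact ⟨k, List.mem_range.2 (by omega), List.mem_map.2 ⟨x, hx, rfl⟩⟩

theorem mul_dp_mem {r k : ℕ} (hk : k ≤ r + 1) {x : B} (hx : x ∈ SS R e r) : 
    x * dp e r k ∈ SS R e (r+1) := by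
  induction hx using Submodule.span_induction with
  | mem x hx => exact Submodule.subset_span (mem_wl_succ hk hx)
  | zero => rw [zero_mul]; exact Submodule.zero_mem _
  | add x y _ _ hx hy => rw [add_mul]; exact Submodule.add_mem _ hx hy
  | smul a x _ hx => rw [smul_mul_assoc]; exact Submodule.smul_mem _ _ hx

theorem mul_e_mem (h : IsTLr m d e) : ∀ r, r + 1 ≤ m → ∀ i < r, ∀ x ∈ SS R e r, x * e i ∈ SS R e r
  | 0, _, i, hi, _, _ => by omega
  | (r+1), hr, i, hi, x, hx => by
    have ih := mul_e_mem h r (by omega)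
    -- multiplication by descending products
    have ihd : ∀ q n, q < r → n ≤ q + 1 → ∀ y ∈ SS R e r, y * dp e q n ∈ SS R e r := by
      intro q n hq
      induction n with
      | zero => intro _ y hy; rw [dp, mul_one]; exact hy
      | succ n ihn =>
        intro hn y hy
        rw [dp, ← mul_assoc]
        exact ih _ (by omega) _ (ihn (by omega) y hy)
    induction hx using Submodule.span_induction with
    | zero => rw [zero_mul]; exact Submodule.zero_mem _
    | add x y _ _ hx hy => rw [add_mul]; exact Submodule.add_mem _ hx hy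
    | smul a x _ hx => rw [smul_mul_assoc]; exact Submodule.smul_mem _ _ hx
    | mem x hx =>
      have hx' : x ∈ wl e (r+1) := hx
      rw [wl, List.mem_flatMap] at hx'
      obtain ⟨k, hk, hx'⟩ := hx'
      obtain ⟨y, hy, rfl⟩ := List.mem_map.1 hx'
      rw [List.mem_range] at hk
      have hy' : y ∈ SS R e r := Submodule.subset_span hy
      rcases Nat.lt_trichotomy (r + 1) (i + k) with h1 | h1 | h1
      · rw [mul_assoc, dp_high' h (by omega) (by omega) k (by omega) h1, ← mul_assoc]
        apply mul_dp_mem (by omega)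
        rcases Nat.eq_zero_or_pos (i + k - (r + 2)) with h2 | h2
        · rw [h2, dp, mul_one]; exact hy'
        · exact ihd _ _ (by omega) (by omega) y hy'
      · -- i is the last index
        obtain ⟨l, rfl⟩ : ∃ l, k = l + 1 := ⟨k - 1, by omega⟩
        have e1 : r - l = i := by omega
        rw [dp, e1, mul_assoc, mul_assoc, h.sq i (by omega), mul_smul_comm, mul_smul_comm]
        apply Submodule.smul_mem
        have := mul_dp_mem (k := l+1) (by omega) hy'
        rw [dp, e1] at this
        exact this
      · rcases Nat.eq_or_lt_of_le (show i + k ≤ r by omega) with h2 | h2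
        · have e1 : r - k = i := by omega
          have := mul_dp_mem (k := k+1) (by omega) hy'
          rw [dp, e1, ← mul_assoc] at this
          exact this
        · have hc : Commute (e i) (dp e r k) := 
            comm_dp k (by omega) (fun l h4 h5 => h.far i l (by omega) (by omega))
          rw [mul_assoc, ← hc.eq, ← mul_assoc]
          exact mul_dp_mem (by omega) (ih i (by omega) y hy')

theorem one_mem_SS : ∀ r, (1 : B) ∈ SS R e r
  | 0 => Submodule.subset_span (by simp [wl])
  | (r+1) => by
    have := mul_dp_mem (k := 0) (by omega) (one_mem_SS r) (R := R) (e := e)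
    rwa [dp, mul_one] at this

theorem wl_mem_adjoin : ∀ r, ∀ x ∈ wl e r, x ∈ Algebra.adjoin R (Set.range e)
  | 0, x, hx => by
    rw [wl, List.mem_singleton] at hx
    rw [hx]; exact Subalgebra.one_mem _
  | (r+1), x, hx => by
    rw [wl, List.mem_flatMap] at hx
    obtain ⟨k, _, hx⟩ := hx
    obtain ⟨y, hy, rfl⟩ := List.mem_map.1 hx
    refine Subalgebra.mul_mem _ (wl_mem_adjoin r y hy) ?_
    have : ∀ k, dp e r k ∈ Algebra.adjoin R (Set.range e) := by
      intro k
      induction k with
      | zero => exact Subalgebra.one_mem _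
      | succ k ih => exact Subalgebra.mul_mem _ ih (Algebra.subset_adjoin ⟨_, rfl⟩)
    exact this k

theorem adjoin_eq (h : IsTLr m d e) (hm : 0 < m) (h0 : ∀ i, m ≤ i + 1 → e i = 0) : 
    Subalgebra.toSubmodule (Algebra.adjoin R (Set.range e)) = SS R e (m - 1) := by
  apply le_antisymm
  · intro b hb
    rw [Subalgebra.mem_toSubmodule] at hb
    have key : ∀ x ∈ SS R e (m - 1), x * b ∈ SS R e (m - 1) := by
      induction hb using Algebra.adjoin_induction with
      | mem b hb =>
        obtain ⟨i, rfl⟩ := hb
        intro x hx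
        rcases Nat.lt_or_ge (i + 1) m with h1 | h1
        · exact mul_e_mem h (m - 1) (by omega) i (by omega) x hx
        · rw [h0 i h1, mul_zero]; exact Submodule.zero_mem _
      | algebraMap r => 
        intro x hx
        rw [← Algebra.commutes, ← Algebra.smul_def]
        exact Submodule.smul_mem _ _ hx
      | add b c _ _ hb hc =>
        intro x hx
        rw [mul_add]
        exact Submodule.add_mem _ (hb x hx) (hc x hx)
      | mul b c _ _ hb hc =>
        intro x hx
        rw [← mul_assoc]
        exact hc _ (hb x hx)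
    have := key 1 (one_mem_SS _)
    rwa [one_mul] at this
  · unfold SS
    rw [Submodule.span_le]
    intro x hx
    exact wl_mem_adjoin _ x hx

/-- the subalgebra generated by the `e i` is generated by `m!` elements as a module -/
theorem finrank_le (h : IsTLr m d e) (hm : 0 < m) (h0 : ∀ i, m ≤ i + 1 → e i = 0) : 
    (⊤ : Submodule R (Algebra.adjoin R (Set.range e))).FG ∧ 
    (⊤ : Submodule R (Algebra.adjoin R (Set.range e))).spanFinrank ≤ m.factorial := by
  classical
  have h1 : (⊤ : Submodule R (Algebra.adjoin R (Set.range e))).map 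
      (Algebra.adjoin R (Set.range e)).val.toLinearMap = SS R e (m - 1) := by
    rw [← adjoin_eq h hm h0, Submodule.map_top]
    ext x
    simp
  have hinj : Function.Injective (Algebra.adjoin R (Set.range e)).val.toLinearMap := 
    Subtype.val_injective
  have hfin : ({x | x ∈ wl e (m - 1)} : Set B).Finite := List.finite_toSet _
  refine ⟨?_, ?_⟩
  · rw [← Submodule.fg_map_iff (Algebra.adjoin R (Set.range e)).val.toLinearMap hinj, h1]
    exact Submodule.fg_span hfin
  · rw [← Submodule.spanFinrank_map_eq_of_injective (Algebra.adjoin R (Set.range e)).val.toLinearMap 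
      hinj, h1]
    refine (Submodule.spanFinrank_span_le_ncard_of_finite hfin).trans ?_
    have h2 : ({x | x ∈ wl e (m - 1)} : Set B) = ((wl e (m - 1)).toFinset : Set B) := by
      ext x; simp
    rw [h2, Set.ncard_coe_finset]
    refine (List.toFinset_card_le _).trans ?_
    rw [wl_length]
    have : m - 1 + 1 = m := by omega
    rw [this]

end span

/-! ### pure words modulo `A + 1` -/

section modpi
variable {R B : Type*} [CommRing R] [Ring B] [Algebra R B] {m : ℕ} {A A' d : R} {e : ℕ → B}

/-- the element of a letter -/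
def ltr (A A' : R) (e : ℕ → B) (x : Bool × ℕ) : B := 
  if x.1 then A • (1 : B) + A' • e x.2 else A' • (1 : B) + A • e x.2

/-- the element of a word -/
def wd (A A' : R) (e : ℕ → B) (w : List (Bool × ℕ)) : B := (w.map (ltr A A' e)).prod

theorem wd_append (A A' : R) (e : ℕ → B) (w w' : List (Bool × ℕ)) : 
    wd A A' e (w ++ w') = wd A A' e w * wd A A' e w' := by simp [wd]

theorem wd_mod (hA : A * A' = 1) (hd : d = - A ^ 2 - A' ^ 2) (h : IsTLr m d e) 
    (w : List (Bool × ℕ)) (hw : ∀ x ∈ w, x.2 + 1 < m) 
    (hp : (w.map (fun x => Equiv.swap x.2 (x.2+1))).prod = 1) :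
    ∃ b : B, wd A A' e w - 1 = (A + 1) • b := by
  set I : Ideal B := Ideal.span {algebraMap R B (A + 1)} with hI
  have htwo : I.IsTwoSided := by
    constructor
    intro a b ha
    rw [hI, Ideal.mem_span_singleton'] at ha ⊢
    obtain ⟨c, rfl⟩ := ha
    refine ⟨c * b, ?_⟩
    rw [mul_assoc, mul_assoc, Algebra.commutes]
  set q : B →+* B ⧸ I := Ideal.Quotient.mk I with hq
  have h0 : q (algebraMap R B (A + 1)) = 0 := by
    rw [hq, Ideal.Quotient.eq_zero_iff_mem, hI]
    exact Ideal.subset_span rfl
  have hqA : q (algebraMap R B A) = -1 := by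
    rw [map_add, map_add, map_one, map_one] at h0
    exact eq_neg_of_add_eq_zero_left h0
  have hqA' : q (algebraMap R B A') = -1 := by
    have h1 : q (algebraMap R B A) * q (algebraMap R B A') = 1 := by
      rw [← map_mul, ← map_mul, hA, map_one, map_one]
    rw [hqA, neg_one_mul] at h1
    rw [← h1, neg_neg]
  have hqd : q (algebraMap R B d) = -2 := by
    rw [hd, map_sub, map_sub, map_neg, map_neg, map_pow, map_pow, map_pow, map_pow, hqA, hqA']
    norm_num
  set s : ℕ → B ⧸ I := fun i => - (1 + q (e i)) with hs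
  have hsq : ∀ i, i + 1 < m → q (e i) * q (e i) = -2 * q (e i) := by
    intro i hi
    rw [← map_mul, h.sq i hi, Algebra.smul_def, map_mul, hqd]
  have hcox : IsCox m s := by
    refine ⟨?_, ?_, ?_⟩
    · intro i hi
      have h1 := hsq i hi
      simp only [hs]
      calc -(1 + q (e i)) * -(1 + q (e i)) = 1 + 2 * q (e i) + q (e i) * q (e i) := by noncomm_ring
        _ = 1 := by rw [h1]; noncomm_ring
    · intro i hi
      have h1 := hsq i (by omega)
      have h2 := hsq (i+1) (by omega)
      have h3 : q (e i) * q (e (i+1)) * q (e i) = q (e i) := by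
        rw [← map_mul, ← map_mul, h.up i hi]
      have h4 : q (e (i+1)) * q (e i) * q (e (i+1)) = q (e (i+1)) := by
        rw [← map_mul, ← map_mul, h.down i hi]
      simp only [hs]
      set x := q (e i)
      set y := q (e (i+1))
      calc -(1 + x) * -(1 + y) * -(1 + x) = -(1 + 2 * x + y + x * y + y * x + x * x + x * y * x) := by
            noncomm_ring
        _ = -(1 + x + y + x * y + y * x) := by rw [h1, h3]; noncomm_ring
        _ = -(1 + 2 * y + x + x * y + y * x + y * y + y * x * y) := by rw [h2, h4]; noncomm_ring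
        _ = -(1 + y) * -(1 + x) * -(1 + y) := by noncomm_ring
    · intro i j hj hij
      have h1 : q (e i) * q (e j) = q (e j) * q (e i) := by
        rw [← map_mul, ← map_mul, h.far i j hj hij]
      simp only [hs]
      calc -(1 + q (e i)) * -(1 + q (e j)) = 1 + q (e i) + q (e j) + q (e i) * q (e j) := by 
            noncomm_ring
        _ = 1 + q (e i) + q (e j) + q (e j) * q (e i) := by rw [h1]
        _ = -(1 + q (e j)) * -(1 + q (e i)) := by noncomm_ring
  have hlet : ∀ x : Bool × ℕ, q (ltr A A' e x) = s x.2 := by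
    intro x
    unfold ltr
    simp only [hs]
    split_ifs
    · rw [map_add, Algebra.smul_def, Algebra.smul_def, map_mul, map_mul, hqA, hqA', map_one]
      noncomm_ring
    · rw [map_add, Algebra.smul_def, Algebra.smul_def, map_mul, map_mul, hqA, hqA', map_one]
      noncomm_ring
  have hfin : q (wd A A' e w) = 1 := by
    have h1 := cox_word hcox (w.map Prod.snd) (by
      intro i hi
      obtain ⟨x, hx, rfl⟩ := List.mem_map.1 hi
      exact hw x hx) (by rw [List.map_map]; exact hp)
    rw [wd, map_list_prod, List.map_map]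
    rw [List.map_map] at h1
    rw [← h1]
    congr 1
    apply List.map_congr_left
    intro x _
    exact hlet x
  have h3 : wd A A' e w - 1 ∈ I := by
    rw [← Ideal.Quotient.eq_zero_iff_mem, map_sub, map_one]
    exact sub_eq_zero.2 hfin
  rw [hI, Ideal.mem_span_singleton'] at h3
  obtain ⟨b, hb⟩ := h3
  exact ⟨b, by rw [← hb, Algebra.smul_def, Algebra.commutes]⟩

/-- **The annihilating polynomial.** -/
theorem exists_poly (hA : A * A' = 1) (hd : d = - A ^ 2 - A' ^ 2) (h : IsTLr m d e) (hm : 0 < m) 
    (h0 : ∀ i, m ≤ i + 1 → e i = 0)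
    (w : List (Bool × ℕ)) (hw : ∀ x ∈ w, x.2 + 1 < m) 
    (hp : (w.map (fun x => Equiv.swap x.2 (x.2+1))).prod = 1) (u : R) (hu : A + 1 ∣ u - 1) :
    ∃ p : R[X], p.Monic ∧ p.natDegree ≤ m.factorial ∧ 
      (∀ j, (A + 1) ^ (p.natDegree - j) ∣ p.coeff j) ∧ aeval (u • wd A A' e w - 1) p = 0 := by
  classical
  set S0 := Algebra.adjoin R (Set.range e) with hS0
  let e' : ℕ → S0 := fun i => ⟨e i, Algebra.subset_adjoin ⟨i, rfl⟩⟩
  have h' : IsTLr m d e' := by
    refine ⟨?_, ?_, ?_, ?_⟩
    · intro i hi; exact Subtype.ext (h.sq i hi)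
    · intro i hi; exact Subtype.ext (h.up i hi)
    · intro i hi; exact Subtype.ext (h.down i hi)
    · intro i j hj hij; exact Subtype.ext (h.far i j hj hij)
  obtain ⟨b, hb⟩ := wd_mod hA hd h' w hw hp
  have hcoe : ((wd A A' e' w : S0) : B) = wd A A' e w := by
    unfold wd
    have : ∀ v : List (Bool × ℕ), (((v.map (ltr A A' e')).prod : S0) : B) = 
        (v.map (ltr A A' e)).prod := by
      intro v
      induction v with
      | nil => rfl
      | cons x v ih =>
        rw [List.map_cons, List.map_cons, List.prod_cons, List.prod_cons, Subalgebra.coe_mul, ih]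
        congr 1
        unfold ltr
        split_ifs <;> rfl
    exact this w
  obtain ⟨hfg, hrank⟩ := finrank_le h hm h0
  have : Module.Finite R S0 := ⟨hfg⟩
  obtain ⟨c, hc⟩ := hu
  -- the element
  set a : S0 := u • wd A A' e' w - 1 with ha
  have ha' : ∃ b' : S0, a = (A + 1) • b' := by
    refine ⟨c • wd A A' e' w + b, ?_⟩
    have h1 : u = 1 + (A + 1) * c := by linear_combination hc
    rw [ha, smul_add, ← hb, h1, add_smul, one_smul, smul_smul]
    abel
  obtain ⟨b', hb'⟩ := ha'
  obtain ⟨p, hp1, hp2, hp3, hp4⟩ := 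
    LinearMap.exists_monic_and_natDegree_eq_and_coeff_mem_pow_and_aeval_eq_zero R (Algebra.lmul R S0 a) 
    (Ideal.span {A + 1}) (by
      rintro _ ⟨y, rfl⟩
      rw [hb']
      have : (Algebra.lmul R S0) ((A + 1) • b') y = (A + 1) • (b' * y) := by
        rw [map_smul]; rfl
      rw [this]
      exact Submodule.smul_mem_smul (Ideal.subset_span rfl) Submodule.mem_top)
  refine ⟨p, hp1, ?_, ?_, ?_⟩
  · rw [hp2]; exact hrank
  · intro j
    have := hp3 j
    rw [Ideal.span_singleton_pow, Ideal.mem_span_singleton] at this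
    exact this
  · have h1 : aeval a p = 0 := by
      have h2 : aeval (Algebra.lmul R S0 a) p = Algebra.lmul R S0 (aeval a p) := 
        aeval_algHom_apply (Algebra.lmul R S0) a p
      rw [h2] at hp4
      have h3 := congrArg (fun f : Module.End R S0 => f 1) hp4
      simpa using h3
    have h2 := congrArg S0.val h1
    rw [map_zero, ← aeval_algHom_apply] at h2
    have h3 : S0.val a = u • wd A A' e w - 1 := by
      rw [ha, map_sub, map_smul, map_one]
      rw [← hcoe]; rfl
    rwa [h3] at h2

end modpi

end Pool.Agent.Y463.SK
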