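import Mathlib

/-!
# Sequences with a recurrence that is congruent to `Δ^D = 0`

A quantitative `π`-adic vanishing lemma for sequences `f : ℤ → R` which satisfy a linear recurrence
`Δ^D f = ∑_{j < D} c_j Δ^j f` with `π^(D-j) ∣ c_j`: such a sequence vanishes identically as soon as it
has `D` zeros.
-/

set_option autoImplicit false

namespace Pool.Agent.Y463.SK

open Finset Polynomial

theorem det_choose_ne_zero (k : ℕ) (n : Fin (k+1) → ℕ) (hn : Function.Injective n) :
    (Matrix.of fun i j : Fin (k+1) => (((n i).choose (j : ℕ) : ℕ) : ℤ)).det ≠ 0 := by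
  intro h
  have h1 := Matrix.det_eval_matrixOfPolynomials_eq_det_vandermonde (fun i => ((n i : ℕ) : ℤ))
    (fun j : Fin (k+1) => descPochhammer ℤ (j : ℕ)) (fun i => descPochhammer_natDegree ℤ i)
    (fun i => monic_descPochhammer ℤ i)
  have h2 : (Matrix.vandermonde (fun i => ((n i : ℕ) : ℤ))).det ≠ 0 := by
    rw [Matrix.det_vandermonde_ne_zero_iff]
    intro a b hab
    simp only [Nat.cast_inj] at hab
    exact hn hab
  apply h2
  rw [h1]
  have h3 : (Matrix.of fun i j : Fin (k+1) => (descPochhammer ℤ (j : ℕ)).eval ((n i : ℕ) : ℤ)) = 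
      Matrix.of fun i j : Fin (k+1) => (((j : ℕ).factorial : ℕ) : ℤ) * 
        (Matrix.of fun i j : Fin (k+1) => (((n i).choose (j : ℕ) : ℕ) : ℤ)) i j := by
    ext i j
    simp only [Matrix.of_apply]
    rw [descPochhammer_eval_eq_descFactorial, Nat.descFactorial_eq_factorial_mul_choose]
    push_cast
    ring
  rw [h3, Matrix.det_mul_row, h, mul_zero]

theorem exists_weights (k : ℕ) (n : Fin (k+1) → ℕ) (hn : Function.Injective n) :
    ∃ (l : Fin (k+1) → ℤ) (N : ℤ), N ≠ 0 ∧ (∀ j < k, ∑ i, l i * (((n i).choose j : ℕ) : ℤ) = 0) ∧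
      ∑ i, l i * (((n i).choose k : ℕ) : ℤ) = N := by
  set M : Matrix (Fin (k+1)) (Fin (k+1)) ℤ := 
    Matrix.of fun i j : Fin (k+1) => (((n i).choose (j : ℕ) : ℕ) : ℤ) with hM
  have hadj : ∀ j : Fin (k+1), ∑ i, M.adjugate (Fin.last k) i * M i j = 
      if Fin.last k = j then M.det else 0 := by
    intro j
    have := congrFun (congrFun (Matrix.adjugate_mul M) (Fin.last k)) j
    rw [Matrix.mul_apply] at this
    rw [this, Matrix.smul_apply, Matrix.one_apply]
    split_ifs <;> simp
  refine ⟨fun i => M.adjugate (Fin.last k) i, M.det, det_choose_ne_zero k n hn, ?_, ?_⟩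
  · intro j hj
    have := hadj ⟨j, by omega⟩
    rw [if_neg (by intro h; have := congrArg Fin.val h; simp at this; omega)] at this
    exact this
  · have := hadj (Fin.last k)
    rw [if_pos rfl] at this
    exact this

variable {R : Type*} [CommRing R]

/-- the shift operator on sequences -/
def Sh (R : Type*) [CommRing R] : Module.End R (ℤ → R) where
  toFun f := fun n => f (n + 1)
  map_add' _ _ := rfl
  map_smul' _ _ := rfl

/-- the difference operator on sequences -/
def Dl (R : Type*) [CommRing R] : Module.End R (ℤ → R) := Sh R - 1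

theorem Sh_pow (n : ℕ) (f : ℤ → R) (x : ℤ) : ((Sh R) ^ n) f x = f (x + n) := by
  induction n generalizing x with
  | zero => simp
  | succ n ih =>
    rw [pow_succ', Module.End.mul_apply]
    show ((Sh R) ^ n) f (x + 1) = _
    rw [ih]
    congr 1
    push_cast
    ring

theorem newton (n : ℕ) (f : ℤ → R) (x : ℤ) : 
    f (x + n) = ∑ k ∈ range (n + 1), ((n.choose k : ℕ) : R) * ((Dl R) ^ k) f x := by
  rw [← Sh_pow n f x]
  have h : Sh R = Dl R + 1 := by simp [Dl]
  rw [h, (Commute.one_right (Dl R)).add_pow, LinearMap.sum_apply, Finset.sum_apply]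
  refine Finset.sum_congr rfl fun k _ => ?_
  rw [one_pow, mul_one, ← (Nat.cast_commute (n.choose k) _).eq, Module.End.mul_apply]
  simp [Module.End.natCast_apply]

theorem newton' (n M : ℕ) (hM : n ≤ M) (f : ℤ → R) (x : ℤ) : 
    f (x + n) = ∑ k ∈ range (M + 1), ((n.choose k : ℕ) : R) * ((Dl R) ^ k) f x := by
  rw [newton n f x]
  apply Finset.sum_subset
  · intro k hk
    rw [Finset.mem_range] at hk ⊢
    omega
  · intro k _ hk
    rw [Finset.mem_range, not_lt] at hk
    rw [Nat.choose_eq_zero_of_lt (by omega)]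
    simp

/-- **The vanishing lemma.** -/
theorem vanish [IsDomain R] {π : R} (hπ : Prime π) (hint : ∀ N : ℤ, N ≠ 0 → ¬ π ∣ (N : R))
    (hinf : ∀ x : R, (∀ k : ℕ, π ^ k ∣ x) → x = 0) (p : R[X]) (hp : p.Monic) 
    (hc : ∀ j, π ^ (p.natDegree - j) ∣ p.coeff j) (f : ℤ → R) (hf : aeval (Dl R) p f = 0)
    (Z : Finset ℤ) (hZ : p.natDegree ≤ Z.card) (hz : ∀ z ∈ Z, f z = 0) : f = 0 := by
  set D := p.natDegree with hD
  -- the recurrence
  have hrec : ∀ (k : ℕ) (x : ℤ), ((Dl R) ^ (k + D)) f x = 
      - ∑ j ∈ range D, p.coeff j * ((Dl R) ^ (k + j)) f x := by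
    intro k x
    have h1 : ((Dl R) ^ k * aeval (Dl R) p) f x = 0 := by
      rw [Module.End.mul_apply, hf, map_zero]; rfl
    rw [aeval_eq_sum_range, Finset.mul_sum, LinearMap.sum_apply, Finset.sum_apply, 
      Finset.sum_range_succ, ← hD] at h1
    have h2 : ∀ j, ((Dl R ^ k * p.coeff j • Dl R ^ j) f x) = p.coeff j * (Dl R ^ (k + j)) f x := by
      intro j
      rw [mul_smul_comm, ← pow_add]
      rfl
    simp only [h2] at h1
    rw [hD, hp.coeff_natDegree, ← hD, one_mul] at h1
    linear_combination h1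
  -- it suffices to treat the part to the right of a point
  suffices H : ∀ x : ℤ, (∀ z ∈ Z, x ≤ z) → ∀ n : ℕ, f (x + n) = 0 by
    funext y
    obtain ⟨x, hx⟩ : ∃ x : ℤ, ∀ z ∈ insert y Z, x ≤ z := by
      obtain ⟨x, hx⟩ := (insert y Z).bddBelow
      exact ⟨x, fun z hz => hx hz⟩
    have h1 := H x (fun z hz => hx z (Finset.mem_insert_of_mem hz)) (y - x).toNat
    have h2 := hx y (Finset.mem_insert_self _ _)
    rwa [Int.toNat_of_nonneg (by omega), add_sub_cancel] at h1
  intro x hx
  set δ : ℕ → R := fun k => ((Dl R) ^ k) f x with hδ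
  -- from the first D differences to all
  have hall : ∀ t : ℕ, (∀ k < D, π ^ (t + k - D) ∣ δ k) → ∀ k, π ^ (t + k - D) ∣ δ k := by
    intro t ht k
    induction k using Nat.strong_induction_on with
    | _ k ih =>
      rcases lt_or_ge k D with hk | hk
      · exact ht k hk
      · obtain ⟨l, rfl⟩ : ∃ l, k = l + D := ⟨k - D, by omega⟩
        show π ^ (t + (l + D) - D) ∣ ((Dl R) ^ (l + D)) f x
        rw [hrec l x]
        apply (Finset.dvd_sum _).neg_right
        intro j hj
        rw [Finset.mem_range] at hj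
        have h1 := ih (l + j) (by omega)
        have h2 := mul_dvd_mul (hc j) h1
        rw [← pow_add] at h2
        exact (pow_dvd_pow π (by omega)).trans h2
  have hstep : ∀ t : ℕ, (∀ k < D, π ^ (t + k - D) ∣ δ k) → ∀ k < D, π ^ (t + 1 + k - D) ∣ δ k := by
    intro t ht k hk
    have ht' := hall t ht
    -- k + 1 zeros
    obtain ⟨Z', hZ', hcard⟩ := Finset.exists_subset_card_eq (show k + 1 ≤ Z.card by omega)
    set n : Fin (k+1) → ℕ := fun i => ((Z'.orderEmbOfFin hcard i) - x).toNat with hn
    have hmem : ∀ i, Z'.orderEmbOfFin hcard i ∈ Z := fun i => hZ' (Finset.orderEmbOfFin_mem _ _ _)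
    have hval : ∀ i, x + (n i : ℤ) = Z'.orderEmbOfFin hcard i := by
      intro i
      have h2 := hx _ (hmem i)
      rw [hn]
      simp only
      rw [Int.toNat_of_nonneg (by omega)]
      ring
    have hinj : Function.Injective n := by
      intro i j hij
      have h1 := hval i
      rw [hij, hval j] at h1
      exact ((Z'.orderEmbOfFin hcard).injective h1).symm
    obtain ⟨l, N, hN, hl0, hl1⟩ := exists_weights k n hinj
    set M := k + ∑ i, n i with hM
    have hnM : ∀ i, n i ≤ M := fun i => 
      (Finset.single_le_sum (f := n) (fun _ _ => Nat.zero_le _) (Finset.mem_univ i)).trans (by omega)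
    have h0 : (0 : R) = ∑ q ∈ range (M + 1), 
        (((∑ i, l i * (((n i).choose q : ℕ) : ℤ) : ℤ)) : R) * δ q := by
      have h1 : ∀ i, (0 : R) = ∑ q ∈ range (M + 1), (((n i).choose q : ℕ) : R) * δ q := by
        intro i
        rw [← newton' (n i) M (hnM i) f x, hval i, hz _ (hmem i)]
      calc (0 : R) = ∑ i, (l i : R) * ∑ q ∈ range (M + 1), (((n i).choose q : ℕ) : R) * δ q := by
            symm
            apply Finset.sum_eq_zero
            intro i _
            rw [← h1 i, mul_zero]
        _ = _ := by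
            simp only [Finset.mul_sum]
            rw [Finset.sum_comm]
            refine Finset.sum_congr rfl fun q _ => ?_
            push_cast
            rw [Finset.sum_mul]
            refine Finset.sum_congr rfl fun i _ => ?_
            ring
    have hkM : k ∈ range (M + 1) := by rw [Finset.mem_range]; omega
    rw [← Finset.add_sum_erase _ _ hkM, hl1] at h0
    have h3 : π ^ (t + 1 + k - D) ∣ (N : R) * δ k := by
      have h4 : (N : R) * δ k = - ∑ q ∈ (range (M + 1)).erase k, 
        (((∑ i, l i * (((n i).choose q : ℕ) : ℤ) : ℤ)) : R) * δ q := by linear_combination -h0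
      rw [h4]
      apply (Finset.dvd_sum _).neg_right
      intro q hq
      rcases lt_or_ge q k with hqk | hqk
      · rw [hl0 q hqk]; simp
      · have hqk' : q ≠ k := Finset.ne_of_mem_erase hq
        exact ((pow_dvd_pow π (by omega)).trans (ht' q)).mul_left _
    exact hπ.pow_dvd_of_dvd_mul_left _ (hint N hN) h3
  have hinfty : ∀ t : ℕ, ∀ k < D, π ^ (t + k - D) ∣ δ k := by
    intro t
    induction t with
    | zero =>
      intro k hk
      have : 0 + k - D = 0 := by omega
      rw [this]; simp
    | succ t ih => exact hstep t ih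
  have hδ0 : ∀ k, δ k = 0 := by
    intro k
    apply hinf
    intro r
    have h1 := hall (r + D) (hinfty (r + D)) k
    exact (pow_dvd_pow π (by omega)).trans h1
  intro n
  rw [newton n f x]
  apply Finset.sum_eq_zero
  intro k _
  have : ((Dl R) ^ k) f x = 0 := hδ0 k
  rw [this, mul_zero]

end Pool.Agent.Y463.SK
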