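import Pool.Agent.Y463.SK.Defs
import Pool.Agent.Y463.SK.Val
import Pool.Agent.Y463.SK.TLSpan
import Pool.Agent.Y463.SK.Pi
import Pool.Agent.W639.RB.Words

/-!
# From braid words in a box to an algebra over `ℤ[A, A⁻¹]`
-/

set_option autoImplicit false

namespace Pool.Agent.Y463.SK

open Finset LaurentPolynomial Pool.Agent.H891R2.Jones Pool.Agent.W639.RB

/-! ### words of natural numbers -/

/-- the permutation of a word as a permutation of `ℕ` -/
def permL (w : List (Bool × ℕ)) : Equiv.Perm ℕ := (w.map (fun x => Equiv.swap x.2 (x.2+1))).prod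

def invL (w : List (Bool × ℕ)) : List (Bool × ℕ) := (w.map (fun x => (!x.1, x.2))).reverse

def powL (w : List (Bool × ℕ)) : ℤ → List (Bool × ℕ)
  | Int.ofNat n => (List.replicate n w).flatten
  | Int.negSucc n => (List.replicate (n+1) (invL w)).flatten

/-- forget the bound on the indices -/
def toN {m : ℕ} (w : List (Letter m)) : List (Bool × ℕ) := w.map (fun x => (x.1, (x.2 : ℕ)))

theorem toN_append {m : ℕ} (w w' : List (Letter m)) : toN (w ++ w') = toN w ++ toN w' := by simp [toN]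

theorem toN_inv {m : ℕ} (w : List (Letter m)) : toN (invW w) = invL (toN w) := by
  simp [toN, invW, invL, List.map_reverse, List.map_map, Function.comp_def]

theorem toN_replicate {m : ℕ} (w : List (Letter m)) (n : ℕ) : 
    toN (List.replicate n w).flatten = (List.replicate n (toN w)).flatten := by
  simp [toN, List.map_flatten, List.map_replicate]

theorem toN_pow {m : ℕ} (w : List (Letter m)) (n : ℤ) : toN (powW w n) = powL (toN w) n := by
  rcases n with n | n
  · exact toN_replicate w n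
  · show toN (List.replicate (n+1) (invW w)).flatten = (List.replicate (n+1) (invL (toN w))).flatten
    rw [toN_replicate, toN_inv]

theorem toN_lt {m : ℕ} (w : List (Letter m)) : ∀ x ∈ toN w, x.2 + 1 < m := by
  intro x hx
  obtain ⟨y, _, rfl⟩ := List.mem_map.1 hx
  have := y.2.2
  show (y.2 : ℕ) + 1 < m
  omega

theorem permL_append (w w' : List (Bool × ℕ)) : permL (w ++ w') = permL w * permL w' := by
  simp [permL]

theorem permL_inv (w : List (Bool × ℕ)) : permL w * permL (invL w) = 1 := by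
  induction w with
  | nil => rfl
  | cons x w ih =>
    have h1 : invL (x :: w) = invL w ++ [(!x.1, x.2)] := by simp [invL]
    have h2 : permL (x :: w) = Equiv.swap x.2 (x.2+1) * permL w := by simp [permL]
    have h3 : permL [(!x.1, x.2)] = Equiv.swap x.2 (x.2+1) := by simp [permL]
    rw [h1, permL_append, h2, h3, mul_assoc, ← mul_assoc (permL w), ih, one_mul, Equiv.swap_mul_self]

theorem permL_toN {m : ℕ} (w : List (Letter m)) : 
    (∀ i : Fin m, permL (toN w) i = permW w i) ∧ ∀ i, m ≤ i → permL (toN w) i = i := by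
  induction w with
  | nil => exact ⟨fun i => rfl, fun i _ => rfl⟩
  | cons x w ih =>
    have h2 : permL (toN (x :: w)) = Equiv.swap (x.2 : ℕ) (x.2+1) * permL (toN w) := by 
      simp [permL, toN]
    have h3 : permW (x :: w) = 
      Equiv.swap (⟨x.2, by omega⟩ : Fin m) ⟨x.2 + 1, by omega⟩ * permW w := by simp [permW]
    refine ⟨fun i => ?_, fun i hi => ?_⟩
    · rw [h2, h3, Equiv.Perm.mul_apply, ih.1 i, Equiv.Perm.mul_apply]
      exact (Fin.val_injective.swap_apply (⟨x.2, by omega⟩ : Fin m) ⟨x.2 + 1, by omega⟩ (permW w i))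
    · rw [h2, Equiv.Perm.mul_apply, ih.2 i hi]
      have := x.2.2
      exact Equiv.swap_apply_of_ne_of_ne (by omega) (by omega)

theorem permL_of_pure {m : ℕ} {w : List (Letter m)} (h : IsPure w) : permL (toN w) = 1 := by
  ext i
  rcases Nat.lt_or_ge i m with hi | hi
  · have := (permL_toN w).1 ⟨i, hi⟩
    rw [h] at this
    exact this
  · exact (permL_toN w).2 i hi

theorem permL_powL {w : List (Bool × ℕ)} (h : permL w = 1) (n : ℤ) : permL (powL w n) = 1 := by
  have h1 : permL (invL w) = 1 := by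
    have := permL_inv w
    rwa [h, one_mul] at this
  have h2 : ∀ (v : List (Bool × ℕ)), permL v = 1 → ∀ n, permL (List.replicate n v).flatten = 1 := by
    intro v hv n
    induction n with
    | zero => rfl
    | succ n ih => 
      rw [List.replicate_succ, List.flatten_cons, permL_append, hv, ih, one_mul]
  rcases n with n | n
  · exact h2 w h n
  · exact h2 _ h1 (n+1)

theorem powL_lt {m : ℕ} {w : List (Bool × ℕ)} (hw : ∀ x ∈ w, x.2 + 1 < m) (n : ℤ) : 
    ∀ x ∈ powL w n, x.2 + 1 < m := by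
  rcases n with n | n
  · intro x hx
    obtain ⟨l, hl, hx⟩ := List.mem_flatten.1 hx
    rw [(List.mem_replicate.1 hl).2] at hx
    exact hw x hx
  · intro x hx
    obtain ⟨l, hl, hx⟩ := List.mem_flatten.1 hx
    rw [(List.mem_replicate.1 hl).2] at hx
    unfold invL at hx
    rw [List.mem_reverse, List.mem_map] at hx
    obtain ⟨y, hy, rfl⟩ := hx
    exact hw y hy

/-! ### the writhe -/

/-- the contribution of a word to the writhe -/
def costS : List (Bool × ℕ) → (ℕ → ℤ) → ℤ
  | [], _ => 0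
  | (x :: w), U => (if x.1 then 1 else -1) * (U x.2 * U (x.2+1)) + 
      costS w (U ∘ Equiv.swap x.2 (x.2+1))

theorem draw_writhe {m : ℕ} (w : List (Bool × ℕ)) : ∀ (O : Outer m), (∀ x ∈ w, x.2 + 1 < m) → 
    owr (draw O w) = owr O + costS w (pat O.up) ∧ pat (draw O w).up = pat O.up ∘ permL w := by
  induction w with
  | nil => intro O _; exact ⟨by simp [draw, costS], rfl⟩
  | cons x w ih =>
    intro O hw
    obtain ⟨h1, h2⟩ := ih (O.push x.1 x.2) (fun j hj => hw j (List.mem_cons_of_mem _ hj))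
    obtain ⟨h3, h4⟩ := push_writhe O x.1 x.2 (hw x List.mem_cons_self)
    have h5 : draw O (x :: w) = draw (O.push x.1 x.2) w := rfl
    have h6 : permL (x :: w) = Equiv.swap x.2 (x.2+1) * permL w := by simp [permL]
    rw [h5, h1, h2, h3, h4, h6]
    refine ⟨?_, rfl⟩
    simp only [costS]
    ring

theorem costS_append (w w' : List (Bool × ℕ)) : ∀ U, 
    costS (w ++ w') U = costS w U + costS w' (U ∘ permL w) := by
  induction w with
  | nil => intro U; simp [costS, permL]
  | cons x w ih =>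
    intro U
    have h6 : permL (x :: w) = Equiv.swap x.2 (x.2+1) * permL w := by simp [permL]
    rw [List.cons_append, costS, costS, ih, h6]
    have h7 : (U ∘ ⇑(Equiv.swap x.2 (x.2+1))) ∘ ⇑(permL w) = 
      U ∘ ⇑(Equiv.swap x.2 (x.2+1) * permL w) := rfl
    rw [h7]
    ring

theorem costS_inv (w : List (Bool × ℕ)) : ∀ U, 
    costS (invL w) (U ∘ permL w) = - costS w U := by
  induction w with
  | nil => intro U; simp [costS, invL]
  | cons x w ih =>
    intro U
    have h1 : invL (x :: w) = invL w ++ [(!x.1, x.2)] := by simp [invL]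
    have h6 : permL (x :: w) = Equiv.swap x.2 (x.2+1) * permL w := by simp [permL]
    have h7 : U ∘ ⇑(Equiv.swap x.2 (x.2+1) * permL w) = 
      (U ∘ ⇑(Equiv.swap x.2 (x.2+1))) ∘ ⇑(permL w) := rfl
    rw [h1, costS_append, h6, h7, ih]
    have h8 : ((U ∘ ⇑(Equiv.swap x.2 (x.2+1))) ∘ ⇑(permL w)) ∘ ⇑(permL (invL w)) = 
        U ∘ ⇑(Equiv.swap x.2 (x.2+1)) := by
      have : ((U ∘ ⇑(Equiv.swap x.2 (x.2+1))) ∘ ⇑(permL w)) ∘ ⇑(permL (invL w)) = 
        (U ∘ ⇑(Equiv.swap x.2 (x.2+1))) ∘ ⇑(permL w * permL (invL w)) := rfl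
      rw [this, permL_inv]
      rfl
    rw [h8]
    simp only [costS, Function.comp_apply, Equiv.swap_apply_left, Equiv.swap_apply_right]
    cases x.1 <;> simp <;> ring

theorem costS_powL {w : List (Bool × ℕ)} (h : permL w = 1) (U : ℕ → ℤ) (n : ℤ) : 
    costS (powL w n) U = n * costS w U := by
  have h1 : permL (invL w) = 1 := by
    have := permL_inv w
    rwa [h, one_mul] at this
  have h2 : ∀ (v : List (Bool × ℕ)), permL v = 1 → ∀ n : ℕ, 
      costS (List.replicate n v).flatten U = n * costS v U := by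
    intro v hv n
    induction n with
    | zero => simp [costS]
    | succ n ih => 
      rw [List.replicate_succ, List.flatten_cons, costS_append, hv]
      have : U ∘ ⇑(1 : Equiv.Perm ℕ) = U := rfl
      rw [this, ih]
      push_cast
      ring
  rcases n with n | n
  · exact h2 w h n
  · have h3 := costS_inv w U
    rw [h] at h3
    have : U ∘ ⇑(1 : Equiv.Perm ℕ) = U := rfl
    rw [this] at h3
    show costS (List.replicate (n+1) (invL w)).flatten U = _
    rw [h2 _ h1 (n+1), h3, Int.negSucc_eq]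
    push_cast
    ring

theorem costS_parity {m : ℕ} (w : List (Bool × ℕ)) (hw : ∀ x ∈ w, x.2 + 1 < m) : 
    ∀ U : ℕ → ℤ, (∀ j < m, U j = 1 ∨ U j = -1) → ∃ k, costS w U = w.length + 2 * k := by
  induction w with
  | nil => intro U _; exact ⟨0, by simp [costS]⟩
  | cons x w ih =>
    intro U hU
    have hx := hw x List.mem_cons_self
    obtain ⟨k, hk⟩ := ih (fun j hj => hw j (List.mem_cons_of_mem _ hj)) 
      (U ∘ Equiv.swap x.2 (x.2+1)) (by
        intro j hj
        rw [Function.comp_apply]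
        by_cases h1 : j = x.2
        · rw [h1, Equiv.swap_apply_left]; exact hU _ hx
        · by_cases h2 : j = x.2 + 1
          · rw [h2, Equiv.swap_apply_right]; exact hU _ (by omega)
          · rw [Equiv.swap_apply_of_ne_of_ne h1 h2]; exact hU j hj)
    have h3 : ∃ l : ℤ, (if x.1 then (1 : ℤ) else -1) * (U x.2 * U (x.2+1)) = 1 + 2 * l := by
      refine ⟨((if x.1 then (1 : ℤ) else -1) * (U x.2 * U (x.2+1)) - 1) / 2, ?_⟩
      rcases hU x.2 (by omega) with h4 | h4 <;> rcases hU (x.2+1) hx with h5 | h5 <;> 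
        rw [h4, h5] <;> cases x.1 <;> decide
    obtain ⟨l, hl⟩ := h3
    refine ⟨k + l, ?_⟩
    rw [costS, hk, hl, List.length_cons]
    push_cast
    ring

theorem even_length {m : ℕ} (w : List (Bool × ℕ)) (hw : ∀ x ∈ w, x.2 + 1 < m) (h : permL w = 1) : 
    Even w.length := by
  have hc : IsCox m (fun _ : ℕ => (-1 : ℤˣ)) := ⟨fun _ _ => by simp, fun _ _ => rfl, fun _ _ _ _ => rfl⟩
  have h1 := cox_word hc (w.map Prod.snd) (by
      intro i hi
      obtain ⟨x, hx, rfl⟩ := List.mem_map.1 hi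
      exact hw x hx) (by rw [List.map_map]; exact h)
  rw [List.map_map] at h1
  have h2 : (w.map ((fun _ : ℕ => (-1 : ℤˣ)) ∘ Prod.snd)).prod = (-1) ^ w.length := by
    have : ((fun _ : ℕ => (-1 : ℤˣ)) ∘ (Prod.snd : Bool × ℕ → ℕ)) = fun _ => -1 := rfl
    rw [this, List.map_const', List.prod_replicate]
  rw [h2] at h1
  by_contra hodd
  rw [Nat.not_even_iff_odd] at hodd
  rw [hodd.neg_one_pow] at h1
  exact absurd h1 (by decide)

theorem even_cost {m : ℕ} (w : List (Bool × ℕ)) (hw : ∀ x ∈ w, x.2 + 1 < m) (h : permL w = 1) 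
    (u : Fin m → Bool) : Even (costS w (pat u)) := by
  obtain ⟨k, hk⟩ := costS_parity w hw (pat u) (by
    intro j hj
    unfold pat
    rw [dif_pos hj]
    split_ifs <;> simp)
  rw [hk]
  have := even_length w hw h
  rw [Int.even_add]
  simp [this]

/-! ### the product algebra -/

/-- the product of the algebras of operators on the colourings with `N ≥ 3` colours -/
def BB (m : ℕ) : Type := 
  ∀ N : {N : ℕ // 3 ≤ N}, Module.End ℂ ((Fin m → Fin N.1) → ((Fin m → Fin N.1) → ℂ))

noncomputable instance (m : ℕ) : Ring (BB m) := 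
  inferInstanceAs (Ring (∀ N : {N : ℕ // 3 ≤ N}, 
    Module.End ℂ ((Fin m → Fin N.1) → ((Fin m → Fin N.1) → ℂ))))

noncomputable def toBB (m : ℕ) : ℤ[T;T⁻¹] →+* BB m := 
  RingHom.pi (fun N => (algebraMap ℂ (Module.End ℂ ((Fin m → Fin N.1) → ((Fin m → Fin N.1) → ℂ)))).comp 
    (ev N.1 N.2))

noncomputable instance (m : ℕ) : Algebra ℤ[T;T⁻¹] (BB m) := 
  (toBB m).toAlgebra' (by
    intro r x
    funext N
    exact Algebra.commutes (ev N.1 N.2 r) (x N))

theorem BB_smul {m : ℕ} (r : ℤ[T;T⁻¹]) (x : BB m) (N : {N : ℕ // 3 ≤ N}) : 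
    (r • x) N = ev N.1 N.2 r • (x N) := by
  rw [Algebra.smul_def]
  show (algebraMap ℂ _ (ev N.1 N.2 r)) * (x N) = _
  rw [← Algebra.smul_def]

theorem BB_mul {m : ℕ} (x y : BB m) (N : {N : ℕ // 3 ≤ N}) : (x * y) N = x N * y N := rfl
theorem BB_add {m : ℕ} (x y : BB m) (N : {N : ℕ // 3 ≤ N}) : (x + y) N = x N + y N := rfl
theorem BB_sub {m : ℕ} (x y : BB m) (N : {N : ℕ // 3 ≤ N}) : (x - y) N = x N - y N := rfl
theorem BB_one {m : ℕ} (N : {N : ℕ // 3 ≤ N}) : (1 : BB m) N = 1 := rfl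
theorem BB_zero {m : ℕ} (N : {N : ℕ // 3 ≤ N}) : (0 : BB m) N = 0 := rfl

/-- the Temperley–Lieb generators -/
noncomputable def EB (m : ℕ) (i : ℕ) : BB m := fun N => ee m N.1 ((Fin m → Fin N.1) → ℂ) i

theorem ev_T1 (N : ℕ) (hN : 3 ≤ N) : ev N hN (T 1) = Ar N := by rw [ev_T]; simp
theorem ev_Tm1 (N : ℕ) (hN : 3 ≤ N) : ev N hN (T (-1)) = (Ar N)⁻¹ := by rw [ev_T]; simp

theorem isTLr_EB (m : ℕ) : IsTLr m (-(T 1)^2 - (T (-1))^2 : ℤ[T;T⁻¹]) (EB m) where
  sq i hi := by
    funext N
    rw [BB_mul, BB_smul]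
    have h1 := (isTL_ee (W := (Fin m → Fin N.1) → ℂ) m N.1).sq i hi
    have h2 : ev N.1 N.2 (-(T 1)^2 - (T (-1))^2 : ℤ[T;T⁻¹]) = (N.1 : ℂ) := by
      rw [map_sub, map_neg, map_pow, map_pow, ev_T1, ev_Tm1, ← Ar_d N.1 N.2]
    rw [h2]
    exact h1
  up i hi := by
    funext N
    exact (isTL_ee (W := (Fin m → Fin N.1) → ℂ) m N.1).up i hi
  down i hi := by
    funext N
    exact (isTL_ee (W := (Fin m → Fin N.1) → ℂ) m N.1).down i hi
  far i j hj hij := by
    funext N
    exact (isTL_ee (W := (Fin m → Fin N.1) → ℂ) m N.1).far i j hj hij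

theorem EB_zero (m : ℕ) (i : ℕ) (hi : m ≤ i + 1) : EB m i = 0 := by
  funext N
  show ee m N.1 ((Fin m → Fin N.1) → ℂ) i = 0
  unfold ee
  rw [dif_neg (by omega)]

theorem T_mul_inv : (T 1 : ℤ[T;T⁻¹]) * T (-1) = 1 := by rw [← T_add, add_neg_cancel, T_zero]

/-- the element of a word -/
noncomputable def bb (m : ℕ) (w : List (Bool × ℕ)) : BB m := 
  wd (T 1 : ℤ[T;T⁻¹]) (T (-1)) (EB m) w

theorem bb_append (m : ℕ) (w w' : List (Bool × ℕ)) : bb m (w ++ w') = bb m w * bb m w' := 
  wd_append _ _ _ _ _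

theorem ltr_apply (m : ℕ) (x : Bool × ℕ) (N : {N : ℕ // 3 ≤ N}) : 
    ltr (T 1 : ℤ[T;T⁻¹]) (T (-1)) (EB m) x N = lt (Ar N.1) m N.1 x := by
  unfold ltr lt sg
  split_ifs
  · rw [BB_add, BB_smul, BB_smul, ev_T1, ev_Tm1]; rfl
  · rw [BB_add, BB_smul, BB_smul, ev_T1, ev_Tm1, inv_inv]; rfl

theorem bb_apply (m : ℕ) (w : List (Bool × ℕ)) (N : {N : ℕ // 3 ≤ N}) : 
    bb m w N = rho (Ar N.1) m N.1 w := by
  induction w with
  | nil => rfl
  | cons x w ih =>
    have h1 : bb m (x :: w) = ltr (T 1 : ℤ[T;T⁻¹]) (T (-1)) (EB m) x * bb m w := by simp [bb, wd]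
    have h2 : rho (Ar N.1) m N.1 (x :: w) = lt (Ar N.1) m N.1 x * rho (Ar N.1) m N.1 w := by 
      simp [rho]
    rw [h1, h2, BB_mul, ih, ltr_apply]

theorem bb_inv {m : ℕ} (w : List (Bool × ℕ)) (hw : ∀ x ∈ w, x.2 + 1 < m) : 
    bb m w * bb m (invL w) = 1 := by
  induction w with
  | nil => 
    have : bb m [] = 1 := rfl
    have h1 : invL [] = [] := rfl
    rw [h1, this, one_mul]
  | cons x w ih =>
    have h1 : invL (x :: w) = invL w ++ [(!x.1, x.2)] := by simp [invL]
    have h2 : bb m (x :: w) = ltr (T 1 : ℤ[T;T⁻¹]) (T (-1)) (EB m) x * bb m w := by simp [bb, wd]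
    have h3 : bb m [(!x.1, x.2)] = ltr (T 1 : ℤ[T;T⁻¹]) (T (-1)) (EB m) (!x.1, x.2) := by simp [bb, wd]
    have h4 := ih (fun j hj => hw j (List.mem_cons_of_mem _ hj))
    rw [h1, bb_append, h2, h3, mul_assoc, ← mul_assoc (bb m w), h4, one_mul]
    funext N
    rw [BB_mul, ltr_apply, ltr_apply, BB_one]
    have hx := hw x List.mem_cons_self
    have hN := Ar_d N.1 N.2
    unfold lt
    simp only
    obtain ⟨p, i⟩ := x
    cases p
    · exact sg_inv' (Ar_ne N.1 N.2) hN (isTL_ee m N.1) i hx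
    · exact sg_inv (Ar_ne N.1 N.2) hN (isTL_ee m N.1) i hx

/-- `w · w^n = w^(n+1)` in the algebra -/
theorem bb_pow_succ {m : ℕ} (w : List (Bool × ℕ)) (hw : ∀ x ∈ w, x.2 + 1 < m) (n : ℤ) : 
    bb m (powL w (n+1)) = bb m w * bb m (powL w n) := by
  rcases n with n | n
  · show bb m (List.replicate (n+1) w).flatten = bb m w * bb m (List.replicate n w).flatten
    rw [List.replicate_succ, List.flatten_cons, bb_append]
  · have h1 : bb m (powL w (Int.negSucc n)) = bb m (invL w) * bb m (List.replicate n (invL w)).flatten := by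
      show bb m (List.replicate (n+1) (invL w)).flatten = _
      rw [List.replicate_succ, List.flatten_cons, bb_append]
    rw [h1, ← mul_assoc, bb_inv w hw, one_mul]
    rcases n with _ | n
    · rfl
    · have : Int.negSucc (n+1) + 1 = Int.negSucc n := by
        rw [Int.negSucc_eq, Int.negSucc_eq]; push_cast; ring
      rw [this]
      rfl

/-! ### the sequence of polynomials of `O(w^n v)` -/

/-- a Laurent polynomial is determined by its values -/
theorem eq_zero_of_ev (f : ℤ[T;T⁻¹]) (h : ∀ N (hN : 3 ≤ N), ev N hN f = 0) : f = 0 := by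
  have := eq_one_of_ev (f + 1) (fun N hN => by rw [map_add, h N hN, map_one, zero_add])
  simpa using this

/-- the functional -/
noncomputable def Fn {m : ℕ} (O : Outer m) (N : {N : ℕ // 3 ≤ N}) (v : List (Bool × ℕ)) (b : BB m) : ℂ := 
  Zg (Ar N.1) N.1 O ((b N) (rho (Ar N.1) m N.1 v (fun x y => ind (x = y))))

theorem Zg_add {m N : ℕ} (A : ℂ) (O : Outer m) (g g' : (Fin m → Fin N) → ((Fin m → Fin N) → ℂ)) : 
    Zg A N O (g + g') = Zg A N O g + Zg A N O g' := by
  unfold Zg
  rw [← Finset.sum_add_distrib]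
  refine Finset.sum_congr rfl fun u _ => ?_
  exact mul_add _ _ _

theorem Zg_smul {m N : ℕ} (A : ℂ) (O : Outer m) (r : ℂ) (g : (Fin m → Fin N) → ((Fin m → Fin N) → ℂ)) : 
    Zg A N O (r • g) = r * Zg A N O g := by
  unfold Zg
  rw [Finset.mul_sum]
  refine Finset.sum_congr rfl fun u _ => ?_
  exact mul_left_comm (WW A O.arcs O.crossings u) r (g (u ∘ O.lower) (u ∘ O.upper))

theorem Fn_add {m : ℕ} (O : Outer m) (N : {N : ℕ // 3 ≤ N}) (v : List (Bool × ℕ)) (b b' : BB m) : 
    Fn O N v (b + b') = Fn O N v b + Fn O N v b' := by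
  unfold Fn
  rw [BB_add, LinearMap.add_apply, Zg_add]

theorem Fn_smul {m : ℕ} (O : Outer m) (N : {N : ℕ // 3 ≤ N}) (v : List (Bool × ℕ)) (r : ℤ[T;T⁻¹]) 
    (b : BB m) : Fn O N v (r • b) = ev N.1 N.2 r * Fn O N v b := by
  unfold Fn
  rw [BB_smul, LinearMap.smul_apply, Zg_smul]

theorem Fn_sub {m : ℕ} (O : Outer m) (N : {N : ℕ // 3 ≤ N}) (v : List (Bool × ℕ)) (b b' : BB m) : 
    Fn O N v (b - b') = Fn O N v b - Fn O N v b' := by
  have h := Fn_add O N v (b - b') b'
  rw [sub_add_cancel] at h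
  rw [h]; ring

theorem Fn_zero {m : ℕ} (O : Outer m) (N : {N : ℕ // 3 ≤ N}) (v : List (Bool × ℕ)) : 
    Fn O N v 0 = 0 := by
  have h := Fn_sub O N v 0 0
  rw [sub_zero, sub_self] at h
  exact h

/-- the polynomial of the diagram -/
noncomputable def ff {m : ℕ} (O : Outer m) (w : List (Bool × ℕ)) : ℤ[T;T⁻¹] := 
  (draw O w).close.fPoly

/-- the value of the polynomial -/
theorem ev_ff {m : ℕ} (hm : 0 < m) (O : Outer m) (w : List (Bool × ℕ)) (hw : ∀ x ∈ w, x.2 + 1 < m)
    (N : {N : ℕ // 3 ≤ N}) : 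
    (N.1 : ℂ) * ev N.1 N.2 (ff O w) = 
      (if Even (owr O + costS w (pat O.up)) then (1 : ℂ) else -1) * 
        (Ar N.1) ^ (-3 * (owr O + costS w (pat O.up))) * 
        Zg (Ar N.1) N.1 O (rho (Ar N.1) m N.1 w (fun x y => ind (x = y))) := by
  have : Nonempty (draw O w).P := ⟨(draw O w).lower ⟨0, hm⟩⟩
  have h1 := ev_bracket N.1 N.2 (draw O w).close
  rw [Z_close, Zg_draw w O hw] at h1
  have h2 : (draw O w).close.writhe = owr O + costS w (pat O.up) := by
    rw [close_writhe, (draw_writhe w O hw).1]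
  unfold ff Diagram.fPoly
  rw [map_mul, map_mul, h2, ev_T]
  have h3 : ev N.1 N.2 (if Even (owr O + costS w (pat O.up)) then 1 else -1) = 
      if Even (owr O + costS w (pat O.up)) then (1 : ℂ) else -1 := by
    split_ifs <;> simp
  rw [h3, ← h1]
  ring

/-- the key formula -/
theorem key_formula {m : ℕ} (hm : 0 < m) (O : Outer m) (w : List (Bool × ℕ)) 
    (hw : ∀ x ∈ w, x.2 + 1 < m) (hp : permL w = 1) (v : List (Bool × ℕ)) (hv : ∀ x ∈ v, x.2 + 1 < m)
    (N : {N : ℕ // 3 ≤ N}) (n : ℤ) :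
    (N.1 : ℂ) * ev N.1 N.2 (ff O (powL w n ++ v)) = 
      (if Even (owr O + costS v (pat O.up)) then (1 : ℂ) else -1) * 
        (Ar N.1) ^ (-3 * (owr O + costS v (pat O.up))) * 
      Fn O N v ((T (-3 * (n * costS w (pat O.up))) : ℤ[T;T⁻¹]) • bb m (powL w n)) := by
  have hA := Ar_ne N.1 N.2
  have h1 : ∀ x ∈ powL w n ++ v, x.2 + 1 < m := by
    intro x hx
    rcases List.mem_append.1 hx with h | h
    · exact powL_lt hw n x h
    · exact hv x h
  have h2 : costS (powL w n ++ v) (pat O.up) = n * costS w (pat O.up) + costS v (pat O.up) := by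
    rw [costS_append, costS_powL hp, permL_powL hp]
    rfl
  have hev : Even (costS w (pat O.up)) := even_cost w hw hp O.up
  rw [ev_ff hm O _ h1 N, h2, Fn_smul, ev_T, rho_append]
  have h3 : (Even (owr O + (n * costS w (pat O.up) + costS v (pat O.up)))) ↔ 
      Even (owr O + costS v (pat O.up)) := by
    have : owr O + (n * costS w (pat O.up) + costS v (pat O.up)) = 
      (owr O + costS v (pat O.up)) + n * costS w (pat O.up) := by ring
    rw [this, Int.even_add]
    simp [hev.mul_left n]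
  have h4 : (Ar N.1) ^ (-3 * (owr O + (n * costS w (pat O.up) + costS v (pat O.up)))) = 
      (Ar N.1) ^ (-3 * (owr O + costS v (pat O.up))) * (Ar N.1) ^ (-3 * (n * costS w (pat O.up))) := by
    rw [← zpow_add₀ hA]
    congr 1
    ring
  have h5 : Fn O N v (bb m (powL w n)) = Zg (Ar N.1) N.1 O 
      ((rho (Ar N.1) m N.1 (powL w n) * rho (Ar N.1) m N.1 v) (fun x y => ind (x = y))) := by
    unfold Fn
    rw [bb_apply]
    rfl
  rw [h4, h5]
  simp only [h3]
  ring

end Pool.Agent.Y463.SK
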