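import Mathlib

/-!
# Words in Coxeter generators of type `A`

If `s_0, …, s_{m-2}` are elements of a monoid satisfying the Coxeter relations of the symmetric group,
then the product of a word in the `s_i` is `1` as soon as the corresponding product of adjacent
transpositions is `1`.
-/

set_option autoImplicit false

namespace Pool.Agent.Y463.SK

/-- the Coxeter relations of the symmetric group on `m` letters -/
structure IsCox {M : Type*} [Monoid M] (m : ℕ) (s : ℕ → M) : Prop where
  sq : ∀ i, i + 1 < m → s i * s i = 1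
  br : ∀ i, i + 2 < m → s i * s (i+1) * s i = s (i+1) * s i * s (i+1)
  far : ∀ i j, j + 1 < m → i + 2 ≤ j → s i * s j = s j * s i

/-- `s_r s_{r-1} ⋯ s_{r-k+1}` -/
def dp {M : Type*} [Monoid M] (s : ℕ → M) (r : ℕ) : ℕ → M
  | 0 => 1
  | (k+1) => dp s r k * s (r - k)

section
variable {M : Type*} [Monoid M] {m : ℕ} {s : ℕ → M}

/-- an element commuting with `s j` for `r - k < j ≤ r` commutes with `dp s r k` -/
theorem comm_dp {x : M} {r : ℕ} : ∀ k, k ≤ r + 1 → (∀ j, r < j + k → j ≤ r → Commute x (s j)) → 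
    Commute x (dp s r k)
  | 0, _, _ => Commute.one_right _
  | (k+1), hk, h => by
    rw [dp]
    exact (comm_dp k (by omega) (fun j h1 h2 => h j (by omega) h2)).mul_right 
      (h _ (by omega) (by omega))

theorem dp_high (h : IsCox m s) {r i : ℕ} (hr : r + 1 < m) (hi : i ≤ r) : ∀ k, k ≤ r + 1 → r + 1 < i + k → 
    dp s r k * s i = s (i - 1) * dp s r k
  | 0, _, h2 => by omega
  | 1, _, h2 => by omega
  | (k+2), h1, h2 => by
    rcases Nat.lt_or_ge (r + 1) (i + (k + 1)) with h3 | h3
    · have ih := dp_high h hr hi (k+1) (by omega) h3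
      rw [dp, mul_assoc, h.far (r - (k+1)) i (by omega) (by omega), ← mul_assoc, ih, mul_assoc]
    · -- r + 1 = i + k + 1
      obtain ⟨j, rfl⟩ : ∃ j, i = j + 1 := ⟨i - 1, by omega⟩
      have e1 : r - (k+1) = j := by omega
      have e2 : r - k = j + 1 := by omega
      have hc : Commute (s j) (dp s r k) := 
        comm_dp k (by omega) (fun l h4 h5 => h.far j l (by omega) (by omega))
      rw [dp, dp, e1, e2, Nat.add_sub_cancel]
      calc dp s r k * s (j+1) * s j * s (j+1) = dp s r k * (s (j+1) * s j * s (j+1)) := by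
            simp only [mul_assoc]
        _ = dp s r k * s j * s (j+1) * s j := by rw [← h.br j (by omega)]; simp only [mul_assoc]
        _ = s j * (dp s r k * s (j+1) * s j) := by rw [← hc.eq]; simp only [mul_assoc]

/-- the submonoid generated by `s i`, `i < r` -/
def Hs (s : ℕ → M) (r : ℕ) : Submonoid M := Submonoid.closure (s '' {i | i < r})

theorem s_mem_Hs {r i : ℕ} (hi : i < r) : s i ∈ Hs s r := 
  Submonoid.subset_closure ⟨i, hi, rfl⟩

theorem normal_form (h : IsCox m s) {r : ℕ} (hr : r + 1 < m) (x : M) (hx : x ∈ Hs s (r+1)) :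
    ∃ y ∈ Hs s r, ∃ k ≤ r + 1, x = y * dp s r k := by
  induction hx using Submonoid.closure_induction_right with
  | one => exact ⟨1, Submonoid.one_mem _, 0, by omega, by simp [dp]⟩
  | mul_right x _ g hg ih =>
    obtain ⟨i, hi, rfl⟩ := hg
    rw [Set.mem_ofPred_eq] at hi
    obtain ⟨y, hy, k, hk, rfl⟩ := ih
    rcases Nat.lt_trichotomy (r + 1) (i + k) with h1 | h1 | h1
    · refine ⟨y * s (i-1), Submonoid.mul_mem _ hy (s_mem_Hs (by omega)), k, hk, ?_⟩
      rw [mul_assoc, dp_high h hr (by omega) k hk h1, mul_assoc]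
    · -- i is the last index
      obtain ⟨l, rfl⟩ : ∃ l, k = l + 1 := ⟨k - 1, by omega⟩
      refine ⟨y, hy, l, by omega, ?_⟩
      have e1 : r - l = i := by omega
      rw [dp, e1, mul_assoc, mul_assoc, h.sq i (by omega), mul_one]
    · rcases Nat.eq_or_lt_of_le (show i + k ≤ r by omega) with h2 | h2
      · refine ⟨y, hy, k + 1, by omega, ?_⟩
        have e1 : r - k = i := by omega
        rw [dp, e1, mul_assoc]
      · refine ⟨y * s i, Submonoid.mul_mem _ hy (s_mem_Hs (by omega)), k, hk, ?_⟩
        have hc : Commute (s i) (dp s r k) := 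
          comm_dp k hk (fun l h4 h5 => h.far i l (by omega) (by omega))
        rw [mul_assoc, mul_assoc, hc.eq]

end

/-- the pair of a generator and the corresponding transposition -/
def pr {M : Type*} (s : ℕ → M) (i : ℕ) : M × Equiv.Perm ℕ := (s i, Equiv.swap i (i+1))

theorem isCox_swap (m : ℕ) : IsCox m (fun i => (Equiv.swap i (i+1) : Equiv.Perm ℕ)) where
  sq i _ := Equiv.swap_mul_self _ _
  br i _ := by
    have h1 : Equiv.swap (i+1) (i+1+1) * Equiv.swap i (i+1) * Equiv.swap (i+1) (i+1+1) = 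
      Equiv.swap (i+1+1) i := Equiv.swap_mul_swap_mul_swap (by omega) (by omega)
    have h2 : Equiv.swap (i+1) i * Equiv.swap (i+1+1) (i+1) * Equiv.swap (i+1) i = 
      Equiv.swap i (i+1+1) := Equiv.swap_mul_swap_mul_swap (by omega) (by omega)
    rw [h1, Equiv.swap_comm i (i+1), Equiv.swap_comm (i+1) (i+1+1), h2, Equiv.swap_comm]
  far i j _ hij := by
    apply Equiv.Perm.Disjoint.commute
    intro x
    by_cases h1 : x = i
    · right; exact Equiv.swap_apply_of_ne_of_ne (by omega) (by omega)
    · by_cases h2 : x = i + 1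
      · right; exact Equiv.swap_apply_of_ne_of_ne (by omega) (by omega)
      · left; exact Equiv.swap_apply_of_ne_of_ne h1 h2

theorem isCox_pr {M : Type*} [Monoid M] {m : ℕ} {s : ℕ → M} (h : IsCox m s) : IsCox m (pr s) where
  sq i hi := Prod.ext (h.sq i hi) ((isCox_swap m).sq i hi)
  br i hi := Prod.ext (h.br i hi) ((isCox_swap m).br i hi)
  far i j hj hij := Prod.ext (h.far i j hj hij) ((isCox_swap m).far i j hj hij)

theorem fixes {M : Type*} [Monoid M] {s : ℕ → M} (r : ℕ) (x : M × Equiv.Perm ℕ) (hx : x ∈ Hs (pr s) r) : 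
    x.2 (r+1) = r+1 := by
  induction hx using Submonoid.closure_induction with
  | one => rfl
  | mul x y _ _ hx hy => 
    show x.2 (y.2 (r+1)) = r+1
    rw [hy, hx]
  | mem x hx =>
    obtain ⟨i, hi, rfl⟩ := hx
    rw [Set.mem_ofPred_eq] at hi
    exact Equiv.swap_apply_of_ne_of_ne (by omega) (by omega)

theorem dp_maps {M : Type*} [Monoid M] {s : ℕ → M} (r : ℕ) : ∀ k, k ≤ r + 1 → 
    (dp (pr s) r k).2 (r + 1 - k) = r + 1
  | 0, _ => rfl
  | (k+1), hk => by
    rw [dp]
    show (dp (pr s) r k).2 (Equiv.swap (r - k) (r - k + 1) (r + 1 - (k+1))) = r + 1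
    have e1 : r + 1 - (k+1) = r - k := by omega
    have e2 : r - k + 1 = r + 1 - k := by omega
    rw [e1, Equiv.swap_apply_left, e2]
    exact dp_maps r k (by omega)

theorem eq_one_of_mem {M : Type*} [Monoid M] {m : ℕ} {s : ℕ → M} (h : IsCox m s) : ∀ r, r < m ∨ r = 0 → 
    ∀ x : M × Equiv.Perm ℕ, x ∈ Hs (pr s) r → x.2 = 1 → x.1 = 1
  | 0, _, x, hx, _ => by
    have : Hs (pr s) 0 = ⊥ := by
      unfold Hs
      have : ({i | i < 0} : Set ℕ) = ∅ := by ext; simp
      rw [this, Set.image_empty, Submonoid.closure_empty]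
    rw [this, Submonoid.mem_bot] at hx
    rw [hx]; rfl
  | (r+1), hr, x, hx, h1 => by
    obtain ⟨y, hy, k, hk, rfl⟩ := normal_form (isCox_pr h) (r := r) (by omega) x hx
    have h2 := dp_maps (s := s) r k hk
    have h3 := fixes r y hy
    have h4 : y.2 ((dp (pr s) r k).2 (r + 1 - k)) = r + 1 - k := by
      have := congrArg (fun p : Equiv.Perm ℕ => p (r + 1 - k)) h1
      exact this
    rw [h2, h3] at h4
    have hk0 : k = 0 := by omega
    subst hk0
    rw [dp, mul_one] at h1 ⊢
    exact eq_one_of_mem h r (by omega) y hy h1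

/-- **Coxeter presentation of the symmetric group.** -/
theorem cox_word {M : Type*} [Monoid M] {m : ℕ} {s : ℕ → M} (h : IsCox m s) (w : List ℕ) 
    (hw : ∀ i ∈ w, i + 1 < m) (hp : (w.map (fun i => Equiv.swap i (i+1))).prod = 1) : 
    (w.map s).prod = 1 := by
  rcases Nat.eq_zero_or_pos m with hm | hm
  · rcases w with _ | ⟨i, w⟩
    · rfl
    · have := hw i List.mem_cons_self
      omega
  have key : ∀ v : List ℕ, (∀ i ∈ v, i + 1 < m) → 
      ((v.map s).prod, (v.map (fun i => Equiv.swap i (i+1))).prod) ∈ Hs (pr s) (m - 1) := by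
    intro v
    induction v with
    | nil => intro _; exact Submonoid.one_mem _
    | cons i v ih =>
      intro hv
      have h1 := ih (fun j hj => hv j (List.mem_cons_of_mem _ hj))
      have h2 : pr s i ∈ Hs (pr s) (m - 1) := s_mem_Hs (by have := hv i List.mem_cons_self; omega)
      have h3 := Submonoid.mul_mem _ h2 h1
      exact h3
  exact eq_one_of_mem h (m - 1) (by omega) _ (key w hw) hp

end Pool.Agent.Y463.SK
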