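import Pool.Agent.W639.RB.Defs

/-!
# Powers of braid words

Words are lists of letters `σ_i^{±1}` (`Pool.Agent.W639.RB.Letter`).
-/

set_option autoImplicit false

namespace Pool.Agent.Y463.SK

open Pool.Agent.H891R2.Jones Pool.Agent.W639.RB

variable {m : ℕ}

/-- the word of the inverse braid: the letters are inverted and their order is reversed -/
def invW (w : List (Letter m)) : List (Letter m) := (w.map (fun x => (!x.1, x.2))).reverse

/-- the power `w^n`, `n ∈ ℤ`, of a word: for `n ≥ 0` the concatenation of `n` copies of `w`, for
`n < 0` the concatenation of `|n|` copies of the inverse word -/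
def powW (w : List (Letter m)) : ℤ → List (Letter m)
  | Int.ofNat n => (List.replicate n w).flatten
  | Int.negSucc n => (List.replicate (n+1) (invW w)).flatten

/-- the permutation of the strands of a braid word: the product of the transpositions `(i, i+1)` of
its letters -/
def permW (w : List (Letter m)) : Equiv.Perm (Fin m) :=
  (w.map (fun x => Equiv.swap (⟨x.2, by omega⟩ : Fin m) ⟨x.2 + 1, by omega⟩)).prod

/-- a braid word is pure if every strand ends at the place where it starts -/
def IsPure (w : List (Letter m)) : Prop := permW w = 1

/-- the link diagram obtained by drawing the braid word `w` in the box of `O` and closing the rest of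
the box by vertical strands -/
def dia (O : Outer m) (w : List (Letter m)) : Diagram (draw O (w.map (fun x => (x.1, (x.2 : ℕ))))).P :=
  (draw O (w.map (fun x => (x.1, (x.2 : ℕ))))).close

/-- the word `w_1^{n_1} v_1 w_2^{n_2} v_2 ⋯ w_k^{n_k} v_k` -/
def multiW {k : ℕ} (w v : Fin k → List (Letter m)) (n : Fin k → ℤ) : List (Letter m) :=
  (List.ofFn (fun i => powW (w i) (n i) ++ v i)).flatten

end Pool.Agent.Y463.SK
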