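import Pool.Agent.Y463.SK.Main

/-!
# Powers of arbitrary braids
-/

set_option autoImplicit false

namespace Pool.Agent.Y463.SK

open Finset LaurentPolynomial Pool.Agent.H891R2.Jones Pool.Agent.W639.RB

/-- two words have the same operators, permutations and contributions to the writhe -/
def Eqv (m : ℕ) (w w' : List (Bool × ℕ)) : Prop := 
  bb m w = bb m w' ∧ permL w = permL w' ∧ ∀ U, costS w U = costS w' U

theorem Eqv.refl {m : ℕ} (w : List (Bool × ℕ)) : Eqv m w w := ⟨rfl, rfl, fun _ => rfl⟩

theorem Eqv.symm {m : ℕ} {w w' : List (Bool × ℕ)} (h : Eqv m w w') : Eqv m w' w := 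
  ⟨h.1.symm, h.2.1.symm, fun U => (h.2.2 U).symm⟩

theorem Eqv.trans {m : ℕ} {w w' w'' : List (Bool × ℕ)} (h : Eqv m w w') (h' : Eqv m w' w'') : 
    Eqv m w w'' := ⟨h.1.trans h'.1, h.2.1.trans h'.2.1, fun U => (h.2.2 U).trans (h'.2.2 U)⟩

theorem Eqv.append {m : ℕ} {w w' v v' : List (Bool × ℕ)} (h : Eqv m w w') (h' : Eqv m v v') : 
    Eqv m (w ++ v) (w' ++ v') := by
  refine ⟨?_, ?_, fun U => ?_⟩
  · rw [bb_append, bb_append, h.1, h'.1]
  · rw [permL_append, permL_append, h.2.1, h'.2.1]
  · rw [costS_append, costS_append, h.2.2, h.2.1, h'.2.2]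

theorem invL_lt {m : ℕ} {w : List (Bool × ℕ)} (hw : ∀ x ∈ w, x.2 + 1 < m) : 
    ∀ x ∈ invL w, x.2 + 1 < m := by
  intro x hx
  unfold invL at hx
  rw [List.mem_reverse, List.mem_map] at hx
  obtain ⟨y, hy, rfl⟩ := hx
  exact hw y hy

theorem invL_invL (w : List (Bool × ℕ)) : invL (invL w) = w := by
  simp [invL, List.map_reverse, List.map_map, Function.comp_def]

theorem Eqv.inv {m : ℕ} {w : List (Bool × ℕ)} (hw : ∀ x ∈ w, x.2 + 1 < m) : 
    Eqv m (w ++ invL w) [] := by
  refine ⟨?_, ?_, fun U => ?_⟩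
  · rw [bb_append, bb_inv w hw]; rfl
  · rw [permL_append, permL_inv]; rfl
  · rw [costS_append, costS_inv]
    simp [costS]

theorem Eqv.inv' {m : ℕ} {w : List (Bool × ℕ)} (hw : ∀ x ∈ w, x.2 + 1 < m) : 
    Eqv m (invL w ++ w) [] := by
  have := Eqv.inv (invL_lt hw)
  rwa [invL_invL] at this

theorem Eqv.cancel {m : ℕ} {w a b : List (Bool × ℕ)} (hw : ∀ x ∈ w, x.2 + 1 < m) 
    (h : Eqv m (w ++ a) (w ++ b)) : Eqv m a b := by
  have h1 := Eqv.append (Eqv.refl (invL w)) h
  rw [← List.append_assoc, ← List.append_assoc] at h1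
  have h2 := Eqv.append (Eqv.inv' hw) (Eqv.refl a)
  have h3 := Eqv.append (Eqv.inv' hw) (Eqv.refl b)
  exact (h2.symm.trans h1).trans h3

theorem powL_succ {m : ℕ} {w : List (Bool × ℕ)} (hw : ∀ x ∈ w, x.2 + 1 < m) (n : ℤ) : 
    Eqv m (powL w (n+1)) (w ++ powL w n) := by
  rcases n with n | n
  · have : powL w (Int.ofNat n + 1) = w ++ powL w (Int.ofNat n) := by
      show (List.replicate (n+1) w).flatten = w ++ (List.replicate n w).flatten
      rw [List.replicate_succ, List.flatten_cons]
    rw [this]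
    exact Eqv.refl _
  · have h1 : powL w (Int.negSucc n) = invL w ++ (List.replicate n (invL w)).flatten := by
      show (List.replicate (n+1) (invL w)).flatten = _
      rw [List.replicate_succ, List.flatten_cons]
    have h2 : powL w (Int.negSucc n + 1) = (List.replicate n (invL w)).flatten := by
      rcases n with _ | n
      · rfl
      · have : Int.negSucc (n+1) + 1 = Int.negSucc n := by
          rw [Int.negSucc_eq, Int.negSucc_eq]; push_cast; ring
        rw [this]
        rfl
    rw [h1, h2, ← List.append_assoc]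
    exact (Eqv.append (Eqv.inv hw) (Eqv.refl _)).symm

theorem powL_add {m : ℕ} {w : List (Bool × ℕ)} (hw : ∀ x ∈ w, x.2 + 1 < m) (a : ℕ) (b : ℤ) : 
    Eqv m (powL w (a + b)) (powL w a ++ powL w b) := by
  induction a with
  | zero => 
    have : ((0 : ℕ) : ℤ) + b = b := by simp
    rw [this]
    exact Eqv.refl _
  | succ a ih =>
    have h1 : ((a + 1 : ℕ) : ℤ) + b = (a + b) + 1 := by push_cast; ring
    have h2 : powL w ((a + 1 : ℕ) : ℤ) = w ++ powL w a := by
      show (List.replicate (a+1) w).flatten = w ++ (List.replicate a w).flatten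
      rw [List.replicate_succ, List.flatten_cons]
    rw [h1, h2, List.append_assoc]
    exact (powL_succ hw _).trans (Eqv.append (Eqv.refl w) ih)

theorem powL_mul {m : ℕ} {w : List (Bool × ℕ)} (hw : ∀ x ∈ w, x.2 + 1 < m) (r : ℕ) (s q : ℤ) : 
    Eqv m (powL w (r * q + s)) (powL (powL w r) q ++ powL w s) := by
  have hwr := powL_lt hw r
  have hup : ∀ q : ℤ, Eqv m (powL w (r * q + s)) (powL (powL w r) q ++ powL w s) ↔ 
      Eqv m (powL w (r * (q+1) + s)) (powL (powL w r) (q+1) ++ powL w s) := by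
    intro q
    have h1 : (r : ℤ) * (q+1) + s = r + (r * q + s) := by ring
    have h2 := powL_add hw r (r * q + s)
    have h3 : Eqv m (powL (powL w r) (q+1) ++ powL w s) (powL w r ++ (powL (powL w r) q ++ powL w s)) := by
      rw [← List.append_assoc]
      exact Eqv.append (powL_succ hwr q) (Eqv.refl _)
    rw [h1]
    constructor
    · intro h
      exact (h2.trans (Eqv.append (Eqv.refl _) h)).trans h3.symm
    · intro h
      exact Eqv.cancel hwr ((h2.symm.trans h).trans h3)
  have h0 : Eqv m (powL w (r * 0 + s)) (powL (powL w r) 0 ++ powL w s) := by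
    have : (r : ℤ) * 0 + s = s := by ring
    rw [this]
    exact Eqv.refl _
  induction q using Int.induction_on with
  | zero => exact h0
  | succ n ih => exact (hup _).1 ih
  | pred n ih =>
    have := (hup (-(n:ℤ) - 1)).2
    rw [sub_add_cancel] at this
    exact this ih

theorem ff_congr {m : ℕ} (hm : 0 < m) (O : Outer m) {w w' : List (Bool × ℕ)} 
    (hw : ∀ x ∈ w, x.2 + 1 < m) (hw' : ∀ x ∈ w', x.2 + 1 < m) (h : Eqv m w w') : 
    ff O w = ff O w' := by
  rw [← sub_eq_zero]
  apply eq_zero_of_ev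
  intro N hN
  have hNC : (N : ℂ) ≠ 0 := by
    rw [Nat.cast_ne_zero]; omega
  have h1 := ev_ff hm O w hw ⟨N, hN⟩
  have h2 := ev_ff hm O w' hw' ⟨N, hN⟩
  have h3 : rho (Ar N) m N w = rho (Ar N) m N w' := by
    have := congrFun h.1 ⟨N, hN⟩
    rwa [bb_apply, bb_apply] at this
  simp only at h1 h2
  rw [h.2.2, h3, ← h2] at h1
  have h4 := mul_left_cancel₀ hNC h1
  rw [map_sub, h4, sub_self]

/-- **Powers of one arbitrary braid.** -/
theorem single_general {m : ℕ} (hm : 0 < m) (O : Outer m) (w : List (Bool × ℕ)) 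
    (hw : ∀ x ∈ w, x.2 + 1 < m) (r : ℕ) (hp : permL (powL w r) = 1) (s : ℤ) (v : List (Bool × ℕ)) 
    (hv : ∀ x ∈ v, x.2 + 1 < m) (F : ℤ[T;T⁻¹]) : 
    (∀ q : ℤ, ff O (powL w (r * q + s) ++ v) = F) ∨ 
    ∀ Z : Finset ℤ, (∀ z ∈ Z, ff O (powL w (r * z + s) ++ v) = F) → Z.card ≤ m.factorial := by
  have hwr := powL_lt hw r
  have hsv : ∀ x ∈ powL w s ++ v, x.2 + 1 < m := by
    intro x hx
    rcases List.mem_append.1 hx with h | h
    · exact powL_lt hw s x h
    · exact hv x h
  have h1 : ∀ q : ℤ, ff O (powL w (r * q + s) ++ v) = ff O (powL (powL w r) q ++ (powL w s ++ v)) := by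
    intro q
    apply ff_congr hm O
    · intro x hx
      rcases List.mem_append.1 hx with h | h
      · exact powL_lt hw _ x h
      · exact hv x h
    · intro x hx
      rcases List.mem_append.1 hx with h | h
      · exact powL_lt hwr _ x h
      · exact hsv x h
    · rw [← List.append_assoc]
      exact Eqv.append (powL_mul hw r s q) (Eqv.refl v)
  simp only [h1]
  exact single hm O (powL w r) hwr hp (powL w s ++ v) hsv F

theorem Eqv.flatten {m : ℕ} : ∀ (k : ℕ) (g g' : Fin k → List (Bool × ℕ)), (∀ i, Eqv m (g i) (g' i)) → 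
    Eqv m (List.ofFn g).flatten (List.ofFn g').flatten := by
  intro k
  induction k with
  | zero => intro g g' _; simp only [List.ofFn_zero]; exact Eqv.refl _
  | succ k ih =>
    intro g g' h
    rw [List.ofFn_succ, List.ofFn_succ, List.flatten_cons, List.flatten_cons]
    exact Eqv.append (h 0) (ih _ _ (fun i => h i.succ))

theorem toN_multi {m k : ℕ} (w v : Fin k → List (Letter m)) (n : Fin k → ℤ) : 
    toN (multiW w v n) = (List.ofFn (fun i => powL (toN (w i)) (n i) ++ toN (v i))).flatten := by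
  unfold multiW
  rw [toN_flatten, List.map_ofFn]
  congr 2
  funext i
  rw [Function.comp_apply, toN_append, toN_pow]

theorem multi_eqv {m k : ℕ} (w v : Fin k → List (Letter m)) (r : Fin k → ℕ) (s q : Fin k → ℤ) : 
    Eqv m (toN (multiW w v (fun i => r i * q i + s i))) 
      (toN (multiW (fun i => powW (w i) (r i)) (fun i => powW (w i) (s i) ++ v i) q)) := by
  rw [toN_multi, toN_multi]
  apply Eqv.flatten
  intro i
  simp only [toN_append, toN_pow]
  rw [← List.append_assoc]
  exact Eqv.append (powL_mul (toN_lt _) (r i) (s i) (q i)) (Eqv.refl _)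

/-- **Several powers of arbitrary braids.** -/
theorem multi_general {m k : ℕ} (hm : 0 < m) (O : Outer m) (w v : Fin k → List (Letter m)) 
    (r : Fin k → ℕ) (hr : ∀ i, IsPure (powW (w i) (r i))) (s : Fin k → ℤ) (F : ℤ[T;T⁻¹]) 
    [DecidableEq ℤ[T;T⁻¹]] :
    (∀ q : Fin k → ℤ, (dia O (multiW w v (fun i => r i * q i + s i))).fPoly = F) ∨ 
    ∀ A : Fin k → Finset ℤ, ((Fintype.piFinset A).filter 
      (fun q => (dia O (multiW w v (fun i => r i * q i + s i))).fPoly = F)).card ≤ 
        m.factorial * ∑ i, ∏ j ∈ univ.erase i, (A j).card := by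
  have h1 : ∀ q : Fin k → ℤ, (dia O (multiW w v (fun i => r i * q i + s i))).fPoly = 
      (dia O (multiW (fun i => powW (w i) (r i)) (fun i => powW (w i) (s i) ++ v i) q)).fPoly := by
    intro q
    rw [dia_fPoly, dia_fPoly]
    exact ff_congr hm O (toN_lt _) (toN_lt _) (multi_eqv w v r s q)
  simp only [h1]
  exact multi hm O _ _ hr F

/-- all the diagrams are closed -/
theorem multi_general_closed {m k : ℕ} (O : Outer m) (w v : Fin k → List (Letter m)) 
    (r : Fin k → ℕ) (hr : ∀ i, IsPure (powW (w i) (r i))) (s : Fin k → ℤ) (hO : O.close.IsClosed) 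
    (hv : ∀ j, O.up (permW (multiW w v s) j) = O.up j) (q : Fin k → ℤ) : 
    (dia O (multiW w v (fun i => r i * q i + s i))).IsClosed := by
  show (draw O (toN (multiW w v (fun i => r i * q i + s i)))).close.IsClosed
  rw [closed_iff] at hO ⊢
  have h0 : ∀ q : Fin k → ℤ, permL (toN (multiW w v (fun i => r i * q i + s i))) = 
      permL (List.ofFn (fun i => powL (toN (w i)) (s i) ++ toN (v i))).flatten := by
    intro q
    rw [(multi_eqv w v r s q).2.1, toN_multi, permL_flatten, permL_flatten, 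
      List.map_ofFn, List.map_ofFn]
    congr 2
    funext i
    simp only [Function.comp_apply]
    have hp := permL_of_pure (hr i)
    rw [permL_append, permL_powL hp, one_mul, toN_append, toN_pow]
  have h1 : permL (toN (multiW w v (fun i => r i * q i + s i))) = permL (toN (multiW w v s)) := by
    rw [h0 q, toN_multi]
  have h2 := (draw_writhe (toN (multiW w v (fun i => r i * q i + s i))) O (toN_lt _)).2
  have h3 : (draw O (toN (multiW w v (fun i => r i * q i + s i)))).up = O.up := by
    apply pat_inj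
    rw [h2, h1]
    funext i
    rw [Function.comp_apply]
    rcases Nat.lt_or_ge i m with hi | hi
    · have h4 := (permL_toN (multiW w v s)).1 ⟨i, hi⟩
      simp only at h4
      rw [h4]
      unfold pat
      rw [dif_pos (Fin.is_lt _), dif_pos hi, Fin.eta, hv]
    · rw [(permL_toN (multiW w v s)).2 i hi]
  rw [h3]
  exact good_draw _ _ O hO

end Pool.Agent.Y463.SK
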