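import Pool.Agent.Y463.SK.Bridge

/-!
# The two main theorems on powers of pure braids in a box
-/

set_option autoImplicit false

namespace Pool.Agent.Y463.SK

open Finset LaurentPolynomial Pool.Agent.H891R2.Jones Pool.Agent.W639.RB

/-- **One pure braid.** -/
theorem single {m : ℕ} (hm : 0 < m) (O : Outer m) (w : List (Bool × ℕ)) 
    (hw : ∀ x ∈ w, x.2 + 1 < m) (hp : permL w = 1) (v : List (Bool × ℕ)) (hv : ∀ x ∈ v, x.2 + 1 < m)
    (F : ℤ[T;T⁻¹]) : 
    (∀ n : ℤ, ff O (powL w n ++ v) = F) ∨ 
    ∀ Z : Finset ℤ, (∀ z ∈ Z, ff O (powL w z ++ v) = F) → Z.card ≤ m.factorial := by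
  set c := costS w (pat O.up) with hc
  set u : ℤ[T;T⁻¹] := T (-3 * c) with hu
  have hcev : Even (-3 * c) := (even_cost w hw hp O.up).mul_left (-3)
  have hpi : (T 1 + 1 : ℤ[T;T⁻¹]) ∣ u - 1 := pi_dvd_T_even _ hcev
  obtain ⟨p, hp1, hp2, hp3, hp4⟩ := exists_poly (A := (T 1 : ℤ[T;T⁻¹])) (A' := T (-1)) T_mul_inv rfl 
    (isTLr_EB m) hm (EB_zero m) w hw hp u hpi
  set f : ℤ → ℤ[T;T⁻¹] := fun n => ff O (powL w n ++ v) with hf
  set X : ℤ → BB m := fun n => (T (-3 * (n * c)) : ℤ[T;T⁻¹]) • bb m (powL w n) with hX
  set b : BB m := u • bb m w with hb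
  have hXs : ∀ n, X (n+1) = b * X n := by
    intro n
    simp only [hX, hb]
    rw [bb_pow_succ w hw n, smul_mul_smul_comm, hu, ← T_add]
    congr 2
    ring
  set K : {N : ℕ // 3 ≤ N} → ℂ := fun N => (if Even (owr O + costS v (pat O.up)) then (1 : ℂ) else -1) * 
        (Ar N.1) ^ (-3 * (owr O + costS v (pat O.up))) with hK
  have hpow : ∀ (N : {N : ℕ // 3 ≤ N}) (k : ℕ) (n : ℤ), 
      (N.1 : ℂ) * ev N.1 N.2 (((Dl ℤ[T;T⁻¹]) ^ k) f n) = K N * Fn O N v ((b - 1) ^ k * X n) := by
    intro N k
    induction k with
    | zero =>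
      intro n
      rw [pow_zero, pow_zero, one_mul]
      exact key_formula hm O w hw hp v hv N n
    | succ k ih =>
      intro n
      have h1 : ((Dl ℤ[T;T⁻¹]) ^ (k+1)) f n = 
          ((Dl ℤ[T;T⁻¹]) ^ k) f (n+1) - ((Dl ℤ[T;T⁻¹]) ^ k) f n := by
        rw [pow_succ', Module.End.mul_apply]
        rfl
      rw [h1, map_sub, mul_sub, ih (n+1), ih n, ← mul_sub, ← Fn_sub]
      congr 2
      rw [hXs, pow_succ]
      noncomm_ring
  have hrec : Polynomial.aeval (Dl ℤ[T;T⁻¹]) p f = 0 := by
    funext n
    apply eq_zero_of_ev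
    intro N hN
    have hNC : (N : ℂ) ≠ 0 := by
      rw [Nat.cast_ne_zero]; omega
    have h1 : (N : ℂ) * ev N hN (Polynomial.aeval (Dl ℤ[T;T⁻¹]) p f n) = 
        K ⟨N, hN⟩ * Fn O ⟨N, hN⟩ v (Polynomial.aeval (b - 1) p * X n) := by
      rw [Polynomial.aeval_eq_sum_range, Polynomial.aeval_eq_sum_range, LinearMap.sum_apply, 
        Finset.sum_apply, map_sum, Finset.mul_sum, Finset.sum_mul]
      have h2 : ∀ (s : Finset ℕ) (g : ℕ → BB m), Fn O ⟨N, hN⟩ v (∑ i ∈ s, g i) = 
          ∑ i ∈ s, Fn O ⟨N, hN⟩ v (g i) := by
        classical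
        intro s g
        induction s using Finset.induction_on with
        | empty => simp [Fn_zero]
        | insert a s ha ih => rw [Finset.sum_insert ha, Finset.sum_insert ha, Fn_add, ih]
      rw [h2, Finset.mul_sum]
      refine Finset.sum_congr rfl fun i _ => ?_
      have h3 := hpow ⟨N, hN⟩ i n
      simp only at h3
      rw [smul_mul_assoc, Fn_smul, LinearMap.smul_apply, Pi.smul_apply, smul_eq_mul, map_mul, 
        mul_left_comm, h3]
      ring
    have hp5 : Polynomial.aeval (b - 1) p = 0 := hp4
    rw [hp5, zero_mul, Fn_zero, mul_zero] at h1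
    exact (mul_eq_zero.1 h1).resolve_left hNC
  -- subtract the constant
  set g : ℤ → ℤ[T;T⁻¹] := fun n => f n - F with hg
  have hDg : Dl ℤ[T;T⁻¹] g = Dl ℤ[T;T⁻¹] f := by
    funext n
    show g (n+1) - g n = f (n+1) - f n
    simp only [hg]
    ring
  have hrecg : Polynomial.aeval (Dl ℤ[T;T⁻¹]) (p * Polynomial.X) g = 0 := by
    rw [map_mul, Polynomial.aeval_X, Module.End.mul_apply, hDg, ← Module.End.mul_apply]
    have : Commute (Polynomial.aeval (Dl ℤ[T;T⁻¹]) p) (Dl ℤ[T;T⁻¹]) := by
      have h1 := Polynomial.aeval_X (R := ℤ[T;T⁻¹]) (Dl ℤ[T;T⁻¹])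
      rw [← h1]
      rw [Polynomial.aeval_X]
      show Polynomial.aeval (Dl ℤ[T;T⁻¹]) p * Dl ℤ[T;T⁻¹] = Dl ℤ[T;T⁻¹] * Polynomial.aeval (Dl ℤ[T;T⁻¹]) p
      have h2 : Polynomial.aeval (Dl ℤ[T;T⁻¹]) (p * Polynomial.X) = 
        Polynomial.aeval (Dl ℤ[T;T⁻¹]) (Polynomial.X * p) := by rw [mul_comm]
      rw [map_mul, map_mul, Polynomial.aeval_X] at h2
      exact h2
    rw [this.eq, Module.End.mul_apply, hrec, map_zero]
  have hmon : (p * Polynomial.X).Monic := hp1.mul Polynomial.monic_X
  have hdeg : (p * Polynomial.X).natDegree = p.natDegree + 1 := by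
    rw [hp1.natDegree_mul Polynomial.monic_X, Polynomial.natDegree_X]
  have hcoef : ∀ j, (T 1 + 1 : ℤ[T;T⁻¹]) ^ ((p * Polynomial.X).natDegree - j) ∣ 
      (p * Polynomial.X).coeff j := by
    intro j
    rcases j with _ | j
    · rw [Polynomial.mul_coeff_zero, Polynomial.coeff_X_zero, mul_zero]
      exact dvd_zero _
    · rw [Polynomial.coeff_mul_X, hdeg]
      have := hp3 j
      have e : p.natDegree + 1 - (j + 1) = p.natDegree - j := by omega
      rw [e]
      exact this
  by_cases hall : ∀ n : ℤ, ff O (powL w n ++ v) = F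
  · exact Or.inl hall
  right
  intro Z hZ
  by_contra hcon
  apply hall
  have hz := vanish prime_pi not_pi_dvd_int eq_zero_of_pi_pow (p * Polynomial.X) hmon hcoef g hrecg Z 
    (by rw [hdeg]; omega) (by
      intro z hz
      simp only [hg, hf]
      rw [hZ z hz, sub_self])
  intro n
  have := congrFun hz n
  exact sub_eq_zero.1 this

/-! ### subsets of `ℤ^k` which meet every axis-parallel line in at most `D` points or contain it -/

theorem grid {k : ℕ} (S : Set (Fin k → ℤ)) [DecidablePred (· ∈ S)] (D : ℕ) 
    (hline : ∀ (x : Fin k → ℤ) (i : Fin k), (∀ t, Function.update x i t ∈ S) ∨ 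
      ∀ Z : Finset ℤ, (∀ z ∈ Z, Function.update x i z ∈ S) → Z.card ≤ D) :
    (∀ x, x ∈ S) ∨ ∀ A : Fin k → Finset ℤ, 
      ((Fintype.piFinset A).filter (· ∈ S)).card ≤ D * ∑ i, ∏ j ∈ univ.erase i, (A j).card := by
  classical
  by_cases hall : ∀ x, x ∈ S
  · exact Or.inl hall
  right
  push Not at hall
  obtain ⟨x0, hx0⟩ := hall
  intro A
  set y : ℕ → (Fin k → ℤ) → (Fin k → ℤ) := fun i x l => if (l : ℕ) < i then x0 l else x l with hy
  -- the bad sets
  set Bd : Fin k → Finset (Fin k → ℤ) := fun i => 
    (Fintype.piFinset A).filter (fun x => y i x ∈ S ∧ y (i+1) x ∉ S) with hBd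
  have hcover : (Fintype.piFinset A).filter (· ∈ S) ⊆ univ.biUnion Bd := by
    intro x hx
    rw [Finset.mem_filter] at hx
    rw [Finset.mem_biUnion]
    by_contra hcon
    push Not at hcon
    have h1 : ∀ i ≤ k, y i x ∈ S := by
      intro i
      induction i with
      | zero =>
        intro _
        have : y 0 x = x := by funext l; simp [hy]
        rw [this]; exact hx.2
      | succ i ih =>
        intro hi
        by_contra hns
        have h2 := hcon ⟨i, by omega⟩ (Finset.mem_univ _)
        apply h2
        rw [hBd]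
        simp only [Finset.mem_filter]
        exact ⟨hx.1, ih (by omega), hns⟩
    have h2 := h1 k le_rfl
    have h3 : y k x = x0 := by
      funext l
      simp only [hy]
      rw [if_pos l.2]
    rw [h3] at h2
    exact hx0 h2
  have hcard : ∀ i, (Bd i).card ≤ D * ∏ j ∈ univ.erase i, (A j).card := by
    intro i
    set φ : (Fin k → ℤ) → (Fin k → ℤ) := fun x => Function.update x i 0 with hφ
    have h1 : (Bd i).card ≤ D * ((Bd i).image φ).card := by
      apply Finset.card_le_mul_card_image
      intro z hz
      rw [Finset.mem_image] at hz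
      obtain ⟨x1, hx1, hx1z⟩ := hz
      rw [hBd] at hx1
      simp only [Finset.mem_filter] at hx1
      -- points in the fibre agree off `i`
      have hag : ∀ x ∈ (Bd i).filter (fun x => φ x = z), ∀ l, l ≠ i → x l = x1 l := by
        intro x hx l hl
        rw [Finset.mem_filter] at hx
        have h2 : φ x = φ x1 := by rw [hx.2, hx1z]
        have h3 := congrFun h2 l
        simp only [hφ] at h3
        rwa [Function.update_of_ne hl, Function.update_of_ne hl] at h3
      have hyu : ∀ x ∈ (Bd i).filter (fun x => φ x = z), 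
          y i x = Function.update (y (i+1) x1) i (x i) := by
        intro x hx
        funext l
        by_cases hl : l = i
        · subst hl
          rw [Function.update_self]
          simp [hy]
        · rw [Function.update_of_ne hl]
          simp only [hy]
          have hl' : (l : ℕ) ≠ i := fun h => hl (Fin.ext h)
          by_cases h2 : (l : ℕ) < i
          · rw [if_pos h2, if_pos (by omega)]
          · rw [if_neg h2, if_neg (by omega)]
            exact hag x hx l hl
      have hinj : Set.InjOn (fun x : Fin k → ℤ => x i) ((Bd i).filter (fun x => φ x = z)) := by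
        intro x hx x' hx' hxx
        funext l
        by_cases hl : l = i
        · rw [hl]; exact hxx
        · rw [hag x hx l hl, hag x' hx' l hl]
      rw [← Finset.card_image_of_injOn hinj]
      rcases hline (y (i+1) x1) i with h2 | h2
      · exfalso
        apply hx1.2.2
        have := h2 (y (i+1) x1 i)
        rwa [Function.update_eq_self] at this
      · apply h2
        intro t ht
        rw [Finset.mem_image] at ht
        obtain ⟨x, hx, rfl⟩ := ht
        rw [← hyu x hx]
        rw [Finset.mem_filter, hBd] at hx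
        simp only [Finset.mem_filter] at hx
        exact hx.1.2.1
    refine h1.trans (Nat.mul_le_mul_left _ ?_)
    have h2 : (Bd i).image φ ⊆ Fintype.piFinset (Function.update A i {0}) := by
      intro z hz
      rw [Finset.mem_image] at hz
      obtain ⟨x, hx, rfl⟩ := hz
      rw [hBd] at hx
      simp only [Finset.mem_filter, Fintype.mem_piFinset] at hx
      rw [Fintype.mem_piFinset]
      intro l
      by_cases hl : l = i
      · subst hl
        simp [hφ]
      · simp only [hφ]
        rw [Function.update_of_ne hl, Function.update_of_ne hl]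
        exact hx.1 l
    refine (Finset.card_le_card h2).trans ?_
    rw [Fintype.card_piFinset, ← Finset.mul_prod_erase univ _ (Finset.mem_univ i), 
      Function.update_self, Finset.card_singleton, one_mul]
    apply le_of_eq
    refine Finset.prod_congr rfl fun j hj => ?_
    rw [Function.update_of_ne (Finset.ne_of_mem_erase hj)]
  calc ((Fintype.piFinset A).filter (· ∈ S)).card ≤ (univ.biUnion Bd).card := 
        Finset.card_le_card hcover
    _ ≤ ∑ i, (Bd i).card := Finset.card_biUnion_le
    _ ≤ ∑ i, D * ∏ j ∈ univ.erase i, (A j).card := Finset.sum_le_sum fun i _ => hcard i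
    _ = _ := by rw [Finset.mul_sum]

/-! ### several powers -/

theorem flatten_update {α : Type*} : ∀ (k : ℕ) (g : Fin k → List α) (i : Fin k), 
    ∃ pre post : List α, ∀ y, (List.ofFn (Function.update g i y)).flatten = pre ++ y ++ post := by
  intro k
  induction k with
  | zero => intro g i; exact i.elim0
  | succ k ih =>
    intro g i
    refine Fin.cases ?_ (fun i => ?_) i
    · refine ⟨[], (List.ofFn (fun j => g j.succ)).flatten, fun y => ?_⟩
      rw [List.ofFn_succ, List.flatten_cons, Function.update_self]
      rfl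
    · obtain ⟨pre, post, h⟩ := ih (fun j => g j.succ) i
      refine ⟨g 0 ++ pre, post, fun y => ?_⟩
      rw [List.ofFn_succ, List.flatten_cons, Function.update_of_ne (Fin.succ_ne_zero i).symm]
      have h1 : (fun j : Fin k => Function.update g i.succ y j.succ) = 
          Function.update (fun j => g j.succ) i y := by
        funext j
        by_cases hj : j = i
        · rw [hj, Function.update_self, Function.update_self]
        · rw [Function.update_of_ne hj, Function.update_of_ne (fun h => hj (Fin.succ_injective _ h))]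
      rw [h1, h y]
      simp only [List.append_assoc]

theorem draw_append {m : ℕ} (O : Outer m) (w w' : List (Bool × ℕ)) : 
    draw O (w ++ w') = draw (draw O w) w' := by
  unfold draw
  rw [List.foldl_append]

theorem dia_fPoly {m : ℕ} (O : Outer m) (w : List (Letter m)) : (dia O w).fPoly = ff O (toN w) := rfl

theorem multi_line {m k : ℕ} (hm : 0 < m) (O : Outer m) (w v : Fin k → List (Letter m)) 
    (hw : ∀ i, IsPure (w i)) (F : ℤ[T;T⁻¹]) (x : Fin k → ℤ) (i : Fin k) :
    (∀ t, (dia O (multiW w v (Function.update x i t))).fPoly = F) ∨ 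
      ∀ Z : Finset ℤ, (∀ z ∈ Z, (dia O (multiW w v (Function.update x i z))).fPoly = F) → 
        Z.card ≤ m.factorial := by
  obtain ⟨pre, post, h⟩ := flatten_update k (fun j => powW (w j) (x j) ++ v j) i
  have h1 : ∀ t, multiW w v (Function.update x i t) = pre ++ (powW (w i) t ++ (v i ++ post)) := by
    intro t
    have h2 : (fun j => powW (w j) (Function.update x i t j) ++ v j) = 
        Function.update (fun j => powW (w j) (x j) ++ v j) i (powW (w i) t ++ v i) := by
      funext j
      by_cases hj : j = i
      · subst hj; rw [Function.update_self, Function.update_self]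
      · rw [Function.update_of_ne hj, Function.update_of_ne hj]
    unfold multiW
    rw [h2, h]
    simp only [List.append_assoc]
  have h3 : ∀ t, (dia O (multiW w v (Function.update x i t))).fPoly = 
      ff (draw O (toN pre)) (powL (toN (w i)) t ++ toN (v i ++ post)) := by
    intro t
    rw [dia_fPoly, h1, toN_append, toN_append, toN_pow]
    unfold ff
    rw [draw_append]
  simp only [h3]
  exact single hm _ _ (toN_lt _) (permL_of_pure (hw i)) _ (toN_lt _) F

theorem multi {m k : ℕ} (hm : 0 < m) (O : Outer m) (w v : Fin k → List (Letter m)) 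
    (hw : ∀ i, IsPure (w i)) (F : ℤ[T;T⁻¹]) [DecidableEq ℤ[T;T⁻¹]] :
    (∀ n : Fin k → ℤ, (dia O (multiW w v n)).fPoly = F) ∨ ∀ A : Fin k → Finset ℤ, 
      ((Fintype.piFinset A).filter (fun n => (dia O (multiW w v n)).fPoly = F)).card ≤ 
        m.factorial * ∑ i, ∏ j ∈ univ.erase i, (A j).card :=
  grid {n | (dia O (multiW w v n)).fPoly = F} m.factorial (multi_line hm O w v hw F)

/-! ### closedness -/

theorem pat_inj {m : ℕ} {u v : Fin m → Bool} (h : pat u = pat v) : u = v := by
  funext j
  have := congrFun h j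
  simp only [pat, Fin.is_lt, dif_pos] at this
  revert this
  cases u j <;> cases v j <;> simp

theorem permL_flatten {l : List (List (Bool × ℕ))} : permL l.flatten = (l.map permL).prod := by
  induction l with
  | nil => rfl
  | cons w l ih => rw [List.flatten_cons, permL_append, ih, List.map_cons, List.prod_cons]

theorem toN_flatten {m : ℕ} (l : List (List (Letter m))) : toN l.flatten = (l.map toN).flatten := by
  unfold toN
  rw [List.map_flatten]

theorem multi_closed {m k : ℕ} (O : Outer m) (w v : Fin k → List (Letter m)) 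
    (hw : ∀ i, IsPure (w i)) (hO : O.close.IsClosed) 
    (hv : ∀ j, O.up (permW (List.ofFn v).flatten j) = O.up j) (n : Fin k → ℤ) : 
    (dia O (multiW w v n)).IsClosed := by
  show (draw O (toN (multiW w v n))).close.IsClosed
  rw [closed_iff] at hO ⊢
  have h1 : permL (toN (multiW w v n)) = permL (toN (List.ofFn v).flatten) := by
    unfold multiW
    rw [toN_flatten, toN_flatten, permL_flatten, permL_flatten, List.map_map, List.map_map, 
      List.map_ofFn, List.map_ofFn]
    congr 2
    funext i
    show permL (toN (powW (w i) (n i) ++ v i)) = permL (toN (v i))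
    rw [toN_append, permL_append, toN_pow, permL_powL (permL_of_pure (hw i)), one_mul]
  have h2 := (draw_writhe (toN (multiW w v n)) O (toN_lt _)).2
  have h3 : (draw O (toN (multiW w v n))).up = O.up := by
    apply pat_inj
    rw [h2, h1]
    funext i
    rw [Function.comp_apply]
    rcases Nat.lt_or_ge i m with hi | hi
    · have h4 := (permL_toN (List.ofFn v).flatten).1 ⟨i, hi⟩
      simp only at h4
      rw [h4]
      unfold pat
      rw [dif_pos (Fin.is_lt _), dif_pos hi, Fin.eta, hv]
    · rw [(permL_toN (List.ofFn v).flatten).2 i hi]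
  rw [h3]
  exact good_draw _ _ O hO

end Pool.Agent.Y463.SK
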